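import Pool.Agent.H716Q.Defs

set_option autoImplicit false

namespace H716Q

open MeasureTheory Set SqDist

theorem s01_int (f : ℝ → ℝ) (hf : Continuous f) : Integrable (fun w : R3 => f (w 2)) sph := by
  haveI := sph_finite
  have hc : Continuous (fun w : R3 => f (w 2)) := hf.comp (by fun_prop)
  obtain ⟨C, hC⟩ := (isCompact_closedBall (0 : R3) 1).exists_bound_of_continuousOn hc.continuousOn
  refine Integrable.of_bound hc.aestronglyMeasurable C ?_
  filter_upwards [sph_ae] with w hw
  exact hC w (by simp [hw])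

theorem s01 : S01 := by
  intro g hg
  haveI := sph_finite
  have key : ∀ ε : ℝ, 0 < ε →
      |∫ w, g (w 2) ∂sph - 2 * Real.pi * ∫ x in (-1 : ℝ)..1, g x| ≤ 8 * Real.pi * ε := by
    intro ε hε
    obtain ⟨q, hq⟩ := exists_polynomial_near_of_continuousOn (-1) 1 g hg.continuousOn ε hε
    have hqc : Continuous (fun x => q.eval x) := q.continuous
    have h1 := sph_z_poly q
    have h2 : |∫ w : R3, g (w 2) ∂sph - ∫ w : R3, q.eval (w 2) ∂sph| ≤ ε * (4 * Real.pi) := by
      rw [← integral_sub (s01_int g hg) (s01_int _ hqc)]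
      have h3 := norm_integral_le_of_norm_le_const (μ := sph) (C := ε)
        (f := fun w : R3 => g (w 2) - q.eval (w 2)) (by
          filter_upwards [sph_ae] with w hw
          have h4 : ‖w 2‖ ≤ ‖w‖ := PiLp.norm_apply_le w 2
          rw [hw, Real.norm_eq_abs, abs_le] at h4
          have h5 := hq (w 2) ⟨h4.1, h4.2⟩
          rw [Real.norm_eq_abs, abs_sub_comm]
          exact h5.le)
      have h6 : sph.real univ = 4 * Real.pi := by
        have h7 := sph_total
        rw [integral_const, smul_eq_mul, mul_one] at h7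
        exact h7
      rw [h6] at h3
      exact h3
    have h3 : |(∫ x in (-1 : ℝ)..1, g x) - ∫ x in (-1 : ℝ)..1, q.eval x| ≤ ε * 2 := by
      rw [← intervalIntegral.integral_sub (hg.intervalIntegrable _ _) (hqc.intervalIntegrable _ _)]
      have h4 := intervalIntegral.norm_integral_le_of_norm_le_const (a := (-1 : ℝ)) (b := 1)
        (C := ε) (f := fun x => g x - q.eval x) (by
          intro x hx
          rw [uIoc_of_le (by norm_num)] at hx
          have h5 := hq x ⟨hx.1.le, hx.2⟩
          rw [Real.norm_eq_abs, abs_sub_comm]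
          exact h5.le)
      have h5 : |(1 : ℝ) - (-1)| = 2 := by norm_num
      rw [h5] at h4
      exact h4
    have hpi := Real.pi_pos
    rw [h1] at h2
    have h6 : ∫ w, g (w 2) ∂sph - 2 * Real.pi * ∫ x in (-1 : ℝ)..1, g x =
        (∫ w : R3, g (w 2) ∂sph - 2 * Real.pi * ∫ z in (-1 : ℝ)..1, q.eval z) -
        2 * Real.pi * ((∫ x in (-1 : ℝ)..1, g x) - ∫ x in (-1 : ℝ)..1, q.eval x) := by ring
    rw [h6]
    refine (abs_sub _ _).trans ?_
    rw [abs_mul, abs_of_pos (by positivity : (0 : ℝ) < 2 * Real.pi)]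
    have h7 := mul_le_mul_of_nonneg_left h3 (by positivity : (0 : ℝ) ≤ 2 * Real.pi)
    linarith
  have h0 : |∫ w, g (w 2) ∂sph - 2 * Real.pi * ∫ x in (-1 : ℝ)..1, g x| ≤ 0 := by
    refine le_of_forall_pos_le_add fun η hη => ?_
    have hpi := Real.pi_pos
    have h1 := key (η / (8 * Real.pi)) (by positivity)
    rw [mul_div_cancel₀ _ (by positivity)] at h1
    linarith
  exact sub_eq_zero.1 (abs_eq_zero.1 (le_antisymm h0 (abs_nonneg _)))

end H716Q
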