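import Pool.Agent.H716Q.Defs

set_option autoImplicit false

namespace H716Q

open MeasureTheory Set SqDist

theorem s02_e3 : ‖e3‖ = 1 := by
  rw [EuclideanSpace.norm_eq, Fin.sum_univ_three]
  simp [e3]

theorem s02_dist (v : R3) (hv : ‖v‖ = 1) : ‖e3 - v‖ ^ 2 = 2 * (1 - v 2) := by
  rw [EuclideanSpace.norm_eq] at hv
  have h1 : v 0 ^ 2 + v 1 ^ 2 + v 2 ^ 2 = 1 := by
    have h2 := congrArg (fun t : ℝ => t ^ 2) hv
    simp only [one_pow] at h2
    rw [Real.sq_sqrt (by positivity), Fin.sum_univ_three] at h2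
    simpa [Real.norm_eq_abs, sq_abs] using h2
  rw [EuclideanSpace.norm_eq, Real.sq_sqrt (by positivity), Fin.sum_univ_three]
  simp only [Real.norm_eq_abs, sq_abs, PiLp.sub_apply, e3]
  simp
  nlinarith

theorem s02_cont (d : ℝ) (hd : 0 < d) : Continuous (kk d e3) := by
  unfold kk
  refine Continuous.div continuous_const (by fun_prop) (fun v => ?_)
  have := Real.pi_pos
  positivity

theorem s02_pole (h01 : S01) (d : ℝ) (hd : 0 < d) : ∫ v, kk d e3 v ∂sph = 1 := by
  have hpi := Real.pi_pos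
  have hg : Continuous (fun x : ℝ => d * (4 + d) / (4 * Real.pi * (d + 2 * max 0 (1 - x)) ^ 2)) := by
    refine Continuous.div continuous_const (by fun_prop) (fun x => ?_)
    have : 0 ≤ max 0 (1 - x) := le_max_left _ _
    positivity
  have h1 : ∫ v, kk d e3 v ∂sph =
      ∫ v, (fun x : ℝ => d * (4 + d) / (4 * Real.pi * (d + 2 * max 0 (1 - x)) ^ 2)) (v 2) ∂sph := by
    apply integral_congr_ae
    filter_upwards [sph_ae] with v hv
    have h2 := s02_dist v hv
    have h3 : 0 ≤ 1 - v 2 := by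
      have := sq_nonneg ‖e3 - v‖
      linarith
    simp only [kk, h2, max_eq_right h3]
  rw [h1, h01 _ hg]
  have h4 : ∫ x in (-1 : ℝ)..1, d * (4 + d) / (4 * Real.pi * (d + 2 * max 0 (1 - x)) ^ 2) =
      ∫ x in (-1 : ℝ)..1, d * (4 + d) / (4 * Real.pi * (d + 2 * (1 - x)) ^ 2) := by
    apply intervalIntegral.integral_congr
    intro x hx
    rw [uIcc_of_le (by norm_num)] at hx
    have : 0 ≤ 1 - x := by linarith [hx.2]
    simp only [max_eq_right this]
  rw [h4]
  have h5 : ∀ x ∈ uIcc (-1 : ℝ) 1, HasDerivAt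
      (fun x : ℝ => d * (4 + d) / (8 * Real.pi) * (d + 2 * (1 - x))⁻¹)
      (d * (4 + d) / (4 * Real.pi * (d + 2 * (1 - x)) ^ 2)) x := by
    intro x hx
    rw [uIcc_of_le (by norm_num)] at hx
    have hx' : 0 ≤ 1 - x := by linarith [hx.2]
    have hne : d + 2 * (1 - x) ≠ 0 := by positivity
    have h6 : HasDerivAt (fun x : ℝ => d + 2 * (1 - x)) (-2) x := by
      have h := (((hasDerivAt_id' x).const_sub 1).const_mul 2).const_add d
      exact h.congr_deriv (by norm_num)
    refine ((h6.fun_inv hne).const_mul (d * (4 + d) / (8 * Real.pi))).congr_deriv ?_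
    field_simp
    ring
  have h7 : ContinuousOn (fun x : ℝ => d * (4 + d) / (4 * Real.pi * (d + 2 * (1 - x)) ^ 2))
      (uIcc (-1) 1) := by
    refine ContinuousOn.div continuousOn_const (by fun_prop) (fun x hx => ?_)
    rw [uIcc_of_le (by norm_num)] at hx
    have hx' : 0 ≤ 1 - x := by linarith [hx.2]
    positivity
  rw [intervalIntegral.integral_eq_sub_of_hasDerivAt h5 h7.intervalIntegrable]
  have h8 : d + 4 ≠ 0 := by positivity
  have h9 : d + 2 * (1 - (-1 : ℝ)) ≠ 0 := by norm_num; positivity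
  have h10 : d + 2 * (1 - (1 : ℝ)) ≠ 0 := by norm_num; positivity
  have h11 : d + 2 * (1 - (-1 : ℝ)) = d + 4 := by ring
  have h12 : d + 2 * (1 - (1 : ℝ)) = d := by ring
  simp only [h11, h12]
  field_simp
  ring

theorem s02 (h01 : S01) : S02 := by
  intro d hd w hw
  obtain ⟨e, he⟩ : ∃ e : R3 ≃ₗᵢ[ℝ] R3, e w = e3 :=
    ⟨(Submodule.span ℝ {w - e3})ᗮ.reflection, Submodule.reflection_sub (by rw [hw, s02_e3])⟩
  have h1 : ∀ v, kk d w v = kk d e3 (e v) := by
    intro v
    unfold kk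
    rw [← he, ← map_sub, e.norm_map]
  simp only [h1]
  have h2 : ∫ v, kk d e3 v ∂(sph.map e) = ∫ v, kk d e3 (e v) ∂sph :=
    integral_map e.continuous.measurable.aemeasurable (s02_cont d hd).aestronglyMeasurable
  rw [← h2, sph_rot]
  exact s02_pole h01 d hd

end H716Q
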