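import Pool.Agent.H716Q.Defs

set_option autoImplicit false

namespace H716Q

open MeasureTheory Set SqDist

theorem s03 : S03 := by
  intro u v η p hu hv hη hmax hp
  obtain ⟨A, hA⟩ : ∃ A, A = u + v + η := ⟨_, rfl⟩
  rw [← hA]
  have hApos : 0 < A := by linarith
  have hpi : 0 < 2 * Real.pi := by positivity
  by_cases hp0 : p = 0
  · subst hp0
    simp only [zero_mul, Complex.zero_re, sub_zero]
    rw [intervalIntegral.integral_const, sub_zero, smul_eq_mul]
    exact mul_le_mul_of_nonneg_left
      (Real.log_le_log hmax (max_le (by linarith) (by linarith))) hpi.le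
  · have hnp : 0 < ‖p‖ := norm_pos_iff.mpr hp0
    have hA4 : (u - v) ^ 2 ≤ A ^ 2 - 4 * (u * v) := by
      rw [hA]
      nlinarith [mul_nonneg hu hη.le, mul_nonneg hv hη.le]
    have hA5 : 4 * (u * v) < A ^ 2 := by
      rw [hA]
      nlinarith [mul_nonneg hu hη.le, mul_nonneg hv hη.le, sq_nonneg (u - v), mul_pos hη hη]
    obtain ⟨D, hDd⟩ : ∃ D, D = Real.sqrt (A ^ 2 - 4 * (u * v)) := ⟨_, rfl⟩
    have hD0 : 0 ≤ D := hDd ▸ Real.sqrt_nonneg _
    have hD2 : D ^ 2 = A ^ 2 - 4 * (u * v) := by
      rw [hDd]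
      exact Real.sq_sqrt (by linarith)
    have hD : |u - v| ≤ D := hDd ▸ Real.abs_le_sqrt hA4
    obtain ⟨M, hMd⟩ : ∃ M, M = (A + D) / 2 := ⟨_, rfl⟩
    have hM : max u v ≤ M := by
      have h1 := (abs_le.mp hD).1
      have h2 := (abs_le.mp hD).2
      rw [hMd, hA]
      apply max_le <;> linarith
    have hM0 : 0 < M := lt_of_lt_of_le hmax hM
    have hMeq : M ^ 2 - A * M + u * v = 0 := by
      rw [hMd]
      nlinarith [hD2]
    have hM2 : ‖p‖ ^ 2 < (2 * M) ^ 2 := by
      rw [hp]
      have h1 : A / 2 ≤ M := by rw [hMd]; linarith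
      nlinarith [mul_le_mul_of_nonneg_left h1 hApos.le]
    have hlt : ‖p‖ < 2 * M := lt_of_pow_lt_pow_left₀ 2 (by positivity) hM2
    obtain ⟨a, ha⟩ : ∃ a : ℂ, a = (2 * M : ℂ) / p := ⟨_, rfl⟩
    have hna : ‖a‖ = 2 * M / ‖p‖ := by
      rw [ha, norm_div]
      congr 1
      rw [norm_mul, Complex.norm_real, Real.norm_eq_abs, abs_of_pos hM0]
      norm_num
    have hna1 : 1 < ‖a‖ := by
      rw [hna, one_lt_div hnp]
      exact hlt
    have key : ∀ θ : ℝ, Real.log (A - (p * Complex.exp ((θ : ℂ) * Complex.I)).re) =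
        (2 * Real.log ‖p‖ - Real.log (4 * M)) + 2 * Real.log ‖circleMap 0 1 θ - a‖ := by
      intro θ
      have hcm : circleMap 0 1 θ = Complex.exp ((θ : ℂ) * Complex.I) := by simp [circleMap]
      rw [hcm]
      have hzn : ‖Complex.exp ((θ : ℂ) * Complex.I)‖ = 1 := Complex.norm_exp_ofReal_mul_I θ
      generalize Complex.exp ((θ : ℂ) * Complex.I) = z at hzn ⊢
      have hza : 0 < ‖z - a‖ := by
        rw [norm_pos_iff, sub_ne_zero]
        rintro rfl
        linarith
      have h2 : (p * z).re ^ 2 + (p * z).im ^ 2 = 4 * (u * v) := by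
        have h3 := Complex.sq_norm (p * z)
        rw [Complex.normSq_apply, norm_mul, hzn, mul_one, hp] at h3
        nlinarith [h3]
      have h1 : ‖p * z - 2 * M‖ ^ 2 = 4 * M * (A - (p * z).re) := by
        have h4 : (p * z - 2 * M : ℂ).re = (p * z).re - 2 * M := by simp
        have h5 : (p * z - 2 * M : ℂ).im = (p * z).im := by simp
        rw [Complex.sq_norm, Complex.normSq_apply, h4, h5]
        nlinarith [h2, hMeq]
      have h3 : p * z - 2 * M = p * (z - a) := by
        rw [mul_sub, ha, mul_div_cancel₀ _ hp0]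
      rw [h3, norm_mul] at h1
      have h6 : A - (p * z).re = (‖p‖ * ‖z - a‖) ^ 2 / (4 * M) := by
        rw [h1]
        field_simp
      rw [h6, Real.log_div (by positivity) (by positivity), Real.log_pow,
        Real.log_mul hnp.ne' hza.ne']
      push_cast
      ring
    have hci : IntervalIntegrable (fun θ : ℝ => Real.log ‖circleMap 0 1 θ - a‖)
        MeasureTheory.volume 0 (2 * Real.pi) :=
      circleIntegrable_log_norm_sub_const (a := a) (c := 0) 1
    have hca := circleAverage_log_norm_sub_const₂ hna1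
    rw [Real.circleAverage_def, smul_eq_mul] at hca
    have hint : ∫ θ in (0 : ℝ)..(2 * Real.pi), Real.log ‖circleMap 0 1 θ - a‖ =
        2 * Real.pi * Real.log ‖a‖ := by
      rw [← hca]
      field_simp
    simp_rw [key]
    rw [intervalIntegral.integral_add intervalIntegrable_const (hci.const_mul 2),
      intervalIntegral.integral_const, intervalIntegral.integral_const_mul, hint, hna,
      Real.log_div (by positivity) hnp.ne', sub_zero, smul_eq_mul]
    have h7 : Real.log (4 * M) = 2 * Real.log (2 * M) - Real.log M := by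
      have h8 : (4 * M) = (2 * M) ^ 2 / M := by
        field_simp
        ring
      rw [h8, Real.log_div (by positivity) hM0.ne', Real.log_pow]
      push_cast
      ring
    have h9 : Real.log (max u v) ≤ Real.log M := Real.log_le_log hmax hM
    rw [h7]
    nlinarith [mul_le_mul_of_nonneg_left h9 hpi.le]

end H716Q
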