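import Pool.Agent.H716Q.Defs

set_option autoImplicit false

namespace H716Q

open MeasureTheory Set SqDist

theorem s04_sq (x : R3) : ‖x‖ ^ 2 = x 0 ^ 2 + x 1 ^ 2 + x 2 ^ 2 := by
  rw [EuclideanSpace.norm_sq_eq, Fin.sum_univ_three]
  simp only [Real.norm_eq_abs, sq_abs]

theorem s04_e3 (v : R3) : ‖e3 - v‖ ^ 2 = v 0 ^ 2 + v 1 ^ 2 + (1 - v 2) ^ 2 := by
  rw [s04_sq]
  have e0 : (e3 - v) 0 = 0 - v 0 := rfl
  have e1 : (e3 - v) 1 = 0 - v 1 := rfl
  have e2 : (e3 - v) 2 = 1 - v 2 := rfl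
  rw [e0, e1, e2]
  ring

theorem s04_rot (a v : R3) (θ : ℝ) :
    ‖rotE (Real.cos θ) (Real.sin θ) (Real.cos_sq_add_sin_sq θ) v - a‖ ^ 2 =
      (Real.cos θ * v 0 - Real.sin θ * v 1 - a 0) ^ 2 +
        (Real.sin θ * v 0 + Real.cos θ * v 1 - a 1) ^ 2 + (v 2 - a 2) ^ 2 := by
  rw [s04_sq]
  have e0 : (rotE (Real.cos θ) (Real.sin θ) (Real.cos_sq_add_sin_sq θ) v - a) 0 =
      Real.cos θ * v 0 - Real.sin θ * v 1 - a 0 := rfl
  have e1 : (rotE (Real.cos θ) (Real.sin θ) (Real.cos_sq_add_sin_sq θ) v - a) 1 =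
      Real.sin θ * v 0 + Real.cos θ * v 1 - a 1 := rfl
  have e2 : (rotE (Real.cos θ) (Real.sin θ) (Real.cos_sq_add_sin_sq θ) v - a) 2 =
      v 2 - a 2 := rfl
  rw [e0, e1, e2]

theorem s04_kk (d : ℝ) (v : R3) (θ : ℝ) :
    kk d e3 (rotE (Real.cos θ) (Real.sin θ) (Real.cos_sq_add_sin_sq θ) v) = kk d e3 v := by
  unfold kk
  rw [s04_e3, s04_e3]
  have e0 : (rotE (Real.cos θ) (Real.sin θ) (Real.cos_sq_add_sin_sq θ) v) 0 =
      Real.cos θ * v 0 - Real.sin θ * v 1 := rfl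
  have e1 : (rotE (Real.cos θ) (Real.sin θ) (Real.cos_sq_add_sin_sq θ) v) 1 =
      Real.sin θ * v 0 + Real.cos θ * v 1 := rfl
  have e2 : (rotE (Real.cos θ) (Real.sin θ) (Real.cos_sq_add_sin_sq θ) v) 2 =
      v 2 := rfl
  rw [e0, e1, e2]
  have hcs := Real.cos_sq_add_sin_sq θ
  have e3 : (Real.cos θ * v 0 - Real.sin θ * v 1) ^ 2 +
      (Real.sin θ * v 0 + Real.cos θ * v 1) ^ 2 = v 0 ^ 2 + v 1 ^ 2 := by
    linear_combination (v 0 ^ 2 + v 1 ^ 2) * hcs
  rw [e3]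

theorem s04_v2 (v : R3) (hv : ‖v‖ = 1) : -1 ≤ v 2 ∧ v 2 ≤ 1 := by
  have hv' : v 0 ^ 2 + v 1 ^ 2 + v 2 ^ 2 = 1 := by rw [← s04_sq, hv]; norm_num
  constructor <;> nlinarith [sq_nonneg (v 0), sq_nonneg (v 1)]

theorem s04_kcont (d : ℝ) (hd : 0 < d) : Continuous (kk d e3) := by
  unfold kk
  have hpi := Real.pi_pos
  refine Continuous.div continuous_const (by fun_prop) fun v => ?_
  positivity

theorem s04_kbd (d : ℝ) (hd : 0 < d) (v : R3) :
    0 ≤ kk d e3 v ∧ kk d e3 v ≤ d * (4 + d) / (4 * Real.pi * d ^ 2) := by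
  have hpi := Real.pi_pos
  unfold kk
  constructor
  · positivity
  · refine div_le_div_of_nonneg_left (by positivity) (by positivity) ?_
    refine mul_le_mul_of_nonneg_left ?_ (by positivity)
    exact pow_le_pow_left₀ hd.le (by linarith [sq_nonneg ‖e3 - v‖]) 2

theorem s04_mpos (t x : ℝ) (h1 : -1 < t) (h2 : t < 1) (h3 : -1 ≤ x) (h4 : x ≤ 1) :
    0 < max ((1 + x) * (1 - t)) ((1 - x) * (1 + t)) := by
  rcases lt_or_ge x 0 with h | h
  · exact lt_max_of_lt_right (mul_pos (by linarith) (by linarith))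
  · exact lt_max_of_lt_left (mul_pos (by linarith) (by linarith))

theorem s04 (h01 : S01) (h18 : S18) : S04 := by
  intro d η a hd hη ha ha2
  haveI := sph_finite
  have hpi := Real.pi_pos
  obtain ⟨ha3, ha4⟩ := abs_lt.1 ha2
  obtain ⟨L, hL⟩ : ∃ L : ℝ → R3 → ℝ, L = fun θ v =>
      (Real.cos θ * v 0 - Real.sin θ * v 1 - a 0) ^ 2 +
        (Real.sin θ * v 0 + Real.cos θ * v 1 - a 1) ^ 2 + (v 2 - a 2) ^ 2 + η := ⟨_, rfl⟩
  have hL1 : ∀ θ v, ‖rotE (Real.cos θ) (Real.sin θ) (Real.cos_sq_add_sin_sq θ) v - a‖ ^ 2 + η =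
      L θ v := by
    intro θ v
    rw [s04_rot, hL]
  have hLpos : ∀ θ v, η ≤ L θ v := by
    intro θ v
    rw [← hL1]
    linarith [sq_nonneg ‖rotE (Real.cos θ) (Real.sin θ) (Real.cos_sq_add_sin_sq θ) v - a‖]
  have hLub : ∀ θ v, ‖v‖ = 1 → L θ v ≤ 4 + η := by
    intro θ v hv
    rw [← hL1]
    have h1 : ‖rotE (Real.cos θ) (Real.sin θ) (Real.cos_sq_add_sin_sq θ) v - a‖ ≤ 2 := by
      refine (norm_sub_le _ _).trans ?_
      rw [LinearIsometryEquiv.norm_map, hv, ha]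
      norm_num
    have h2 := norm_nonneg (rotE (Real.cos θ) (Real.sin θ) (Real.cos_sq_add_sin_sq θ) v - a)
    nlinarith
  have hLc : Continuous (fun q : ℝ × R3 => L q.1 q.2) := by
    rw [hL]
    fun_prop
  have hkc := s04_kcont d hd
  have hFc : Continuous (fun q : ℝ × R3 => kk d e3 q.2 * Real.log (L q.1 q.2)) :=
    (hkc.comp continuous_snd).mul
      (hLc.log fun q => (lt_of_lt_of_le hη (hLpos q.1 q.2)).ne')
  have hFi : Integrable (Function.uncurry fun (θ : ℝ) (v : R3) => kk d e3 v * Real.log (L θ v))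
      ((volume.restrict (Set.Ioc 0 (2 * Real.pi))).prod sph) := by
    refine Integrable.of_bound (C := d * (4 + d) / (4 * Real.pi * d ^ 2) *
      (|Real.log η| + |Real.log (4 + η)|)) hFc.aestronglyMeasurable ?_
    have h1 : ∀ᵐ q ∂((volume.restrict (Set.Ioc 0 (2 * Real.pi))).prod sph), ‖q.2‖ = 1 :=
      Measure.quasiMeasurePreserving_snd.ae sph_ae
    filter_upwards [h1] with q hq
    obtain ⟨k1, k2⟩ := s04_kbd d hd q.2
    have l1 : Real.log η ≤ Real.log (L q.1 q.2) := Real.log_le_log hη (hLpos _ _)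
    have l2 : Real.log (L q.1 q.2) ≤ Real.log (4 + η) :=
      Real.log_le_log (lt_of_lt_of_le hη (hLpos _ _)) (hLub _ _ hq)
    have l3 : |Real.log (L q.1 q.2)| ≤ |Real.log η| + |Real.log (4 + η)| := by
      rw [abs_le]
      constructor
      · linarith [neg_abs_le (Real.log η), abs_nonneg (Real.log (4 + η))]
      · linarith [le_abs_self (Real.log (4 + η)), abs_nonneg (Real.log η)]
    show ‖kk d e3 q.2 * Real.log (L q.1 q.2)‖ ≤ _
    rw [norm_mul, Real.norm_of_nonneg k1, Real.norm_eq_abs]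
    exact mul_le_mul k2 l3 (abs_nonneg _) (by positivity)
  -- rotation invariance
  have hI : ∀ θ : ℝ, ∫ v, kk d e3 v * Real.log (L θ v) ∂sph =
      ∫ v, kk d e3 v * Real.log (‖v - a‖ ^ 2 + η) ∂sph := by
    intro θ
    have hc : Continuous (fun v : R3 => kk d e3 v * Real.log (‖v - a‖ ^ 2 + η)) := by
      refine hkc.mul (Continuous.log (by fun_prop) fun v => ?_)
      positivity
    have h1 := sph_rot (rotE (Real.cos θ) (Real.sin θ) (Real.cos_sq_add_sin_sq θ))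
    conv_rhs => rw [← h1]
    rw [integral_map (LinearIsometryEquiv.continuous _).aemeasurable hc.aestronglyMeasurable]
    refine integral_congr_ae (Filter.Eventually.of_forall fun v => ?_)
    simp only
    rw [s04_kk, hL1]
  -- the function of `v 2`
  obtain ⟨cl, hcl⟩ : ∃ cl : ℝ → ℝ, cl = fun x => max (-1) (min 1 x) := ⟨_, rfl⟩
  have hclc : Continuous cl := by rw [hcl]; fun_prop
  have hcl1 : ∀ x, -1 ≤ cl x := fun x => by rw [hcl]; exact le_max_left _ _
  have hcl2 : ∀ x, cl x ≤ 1 := fun x => by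
    rw [hcl]; exact max_le (by norm_num) (min_le_left _ _)
  have hcl3 : ∀ x, -1 ≤ x → x ≤ 1 → cl x = x := fun x h1 h2 => by
    rw [hcl]
    simp only
    rw [min_eq_right h2, max_eq_right h1]
  obtain ⟨G, hG⟩ : ∃ G : ℝ → ℝ, G = fun x =>
      d * (4 + d) / (4 * Real.pi * (d + (2 - 2 * cl x)) ^ 2) *
        Real.log (max ((1 + cl x) * (1 - a 2)) ((1 - cl x) * (1 + a 2))) := ⟨_, rfl⟩
  have hGc : Continuous G := by
    rw [hG]
    refine Continuous.mul (Continuous.div continuous_const (by fun_prop) fun x => ?_)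
      (Continuous.log (by fun_prop) fun x => ?_)
    · have : 0 < d + (2 - 2 * cl x) := by linarith [hcl2 x]
      positivity
    · exact (s04_mpos (a 2) (cl x) ha3 ha4 (hcl1 x) (hcl2 x)).ne'
  have hGe : ∀ x, -1 ≤ x → x ≤ 1 → G x = d * (4 + d) / (4 * Real.pi * (d + (2 - 2 * x)) ^ 2) *
        Real.log (max ((1 + x) * (1 - a 2)) ((1 - x) * (1 + a 2))) := by
    intro x h1 h2
    rw [hG]
    simp only
    rw [hcl3 x h1 h2]
  have hG1 := h01 G hGc
  have hG2 : ∫ x in (-1 : ℝ)..1, d * (4 + d) / (4 * Real.pi * (d + (2 - 2 * x)) ^ 2) *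
      Real.log (max ((1 + x) * (1 - a 2)) ((1 - x) * (1 + a 2))) = ∫ x in (-1 : ℝ)..1, G x := by
    refine intervalIntegral.integral_congr fun x hx => ?_
    rw [Set.uIcc_of_le (by norm_num)] at hx
    exact (hGe x hx.1 hx.2).symm
  rw [hG2, ← hG1]
  have hGi : Integrable (fun v : R3 => 2 * Real.pi * G (v 2)) sph := by
    obtain ⟨C, hC⟩ := isCompact_Icc.exists_bound_of_continuousOn
      (s := Set.Icc (-1 : ℝ) 1) hGc.continuousOn
    refine (Integrable.of_bound (C := C) ?_ ?_).const_mul _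
    · exact (hGc.comp (by fun_prop : Continuous fun v : R3 => v 2)).aestronglyMeasurable
    · filter_upwards [sph_ae] with v hv
      exact hC _ ⟨(s04_v2 v hv).1, (s04_v2 v hv).2⟩
  have hmono : ∫ v, 2 * Real.pi * G (v 2) ∂sph ≤
      ∫ v, (∫ θ in Set.Ioc 0 (2 * Real.pi), kk d e3 v * Real.log (L θ v)) ∂sph := by
    refine integral_mono_ae hGi hFi.integral_prod_right ?_
    filter_upwards [sph_ae] with v hv
    obtain ⟨hv1, hv2⟩ := s04_v2 v hv
    have h := h18 η v a hη hv ha ha2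
    rw [intervalIntegral.integral_of_le (by positivity)] at h
    simp only [hL1] at h
    have h2 : G (v 2) = kk d e3 v *
        Real.log (max ((1 + v 2) * (1 - a 2)) ((1 - v 2) * (1 + a 2))) := by
      rw [hGe _ hv1 hv2]
      unfold kk
      rw [s04_e3]
      have hv' : v 0 ^ 2 + v 1 ^ 2 + v 2 ^ 2 = 1 := by rw [← s04_sq, hv]; norm_num
      have e1 : v 0 ^ 2 + v 1 ^ 2 + (1 - v 2) ^ 2 = 2 - 2 * v 2 := by linarith
      rw [e1]
    show 2 * Real.pi * G (v 2) ≤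
      ∫ θ in Set.Ioc 0 (2 * Real.pi), kk d e3 v * Real.log (L θ v)
    rw [integral_const_mul, h2]
    calc 2 * Real.pi * (kk d e3 v *
        Real.log (max ((1 + v 2) * (1 - a 2)) ((1 - v 2) * (1 + a 2)))) =
        kk d e3 v * (2 * Real.pi *
        Real.log (max ((1 + v 2) * (1 - a 2)) ((1 - v 2) * (1 + a 2)))) := by ring
      _ ≤ _ := mul_le_mul_of_nonneg_left h (s04_kbd d hd v).1
  have hswap := integral_integral_swap hFi
  rw [← hswap] at hmono
  simp only [hI] at hmono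
  rw [← intervalIntegral.integral_of_le (by positivity), intervalIntegral.integral_const,
    integral_const_mul, sub_zero, smul_eq_mul] at hmono
  exact le_of_mul_le_mul_left hmono (by positivity)

end H716Q
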