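import Pool.Agent.H716Q.Defs

set_option autoImplicit false

namespace H716Q

open MeasureTheory Set SqDist

theorem s05_K (d x : ℝ) (h : 0 < d + (2 - 2 * x)) :
    HasDerivAt (fun x : ℝ => 1 / (2 * (d + (2 - 2 * x)))) (1 / (d + (2 - 2 * x)) ^ 2) x := by
  have h1 : HasDerivAt (fun x : ℝ => 2 * (d + (2 - 2 * x))) (2 * (-2)) x := by
    have h2 : HasDerivAt (fun x : ℝ => 2 * x) 2 x := by
      simpa using (hasDerivAt_id x).const_mul (2 : ℝ)
    have h3 := ((h2.const_sub 2).const_add d).const_mul (2 : ℝ)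
    simpa using h3
  have h4 := h1.inv (by positivity)
  have h5 : (fun x : ℝ => 1 / (2 * (d + (2 - 2 * x)))) = (fun x : ℝ => (2 * (d + (2 - 2 * x)))⁻¹) := by
    funext x; rw [one_div]
  rw [h5]
  refine h4.congr_deriv ?_
  field_simp

theorem s05_L (d x : ℝ) (h : 0 < d + (2 - 2 * x)) :
    HasDerivAt (fun x : ℝ => Real.log (d + (2 - 2 * x))) (-2 / (d + (2 - 2 * x))) x := by
  have h1 : HasDerivAt (fun x : ℝ => (d + (2 - 2 * x))) (-2) x := by
    have h2 : HasDerivAt (fun x : ℝ => 2 * x) 2 x := by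
      simpa using (hasDerivAt_id x).const_mul (2 : ℝ)
    simpa using ((h2.const_sub 2).const_add d)
  exact h1.log h.ne'

theorem s05_A1 (d ξ x : ℝ) (hd : 0 < d) (hx : 0 < 1 - x) (hξ : 0 < 1 + ξ) :
    HasDerivAt (fun x : ℝ => Real.log (1 - x) * (1 / (2 * (d + (2 - 2 * x))) - 1 / (2 * d)) +
      1 / (2 * d) * Real.log (d + (2 - 2 * x)) +
      Real.log (1 + ξ) * (1 / (2 * (d + (2 - 2 * x)))))
      (1 / (d + (2 - 2 * x)) ^ 2 * Real.log ((1 - x) * (1 + ξ))) x := by
  have hD : 0 < d + (2 - 2 * x) := by linarith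
  have hl : HasDerivAt (fun x : ℝ => Real.log (1 - x)) (-1 / (1 - x)) x := by
    have h1 : HasDerivAt (fun x : ℝ => 1 - x) (-1) x := by
      simpa using (hasDerivAt_id x).const_sub (1 : ℝ)
    exact h1.log hx.ne'
  have hK := s05_K d x hD
  have hL := s05_L d x hD
  have h := ((hl.mul (hK.sub_const (1 / (2 * d)))).add (hL.const_mul (1 / (2 * d)))).add
    (hK.const_mul (Real.log (1 + ξ)))
  refine h.congr_deriv ?_
  rw [Real.log_mul hx.ne' hξ.ne']
  field_simp
  ring

theorem s05_A2 (d ξ x : ℝ) (hd : 0 < d) (hx : 0 < 1 + x) (hx1 : x ≤ 1) (hξ : 0 < 1 - ξ) :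
    HasDerivAt (fun x : ℝ => Real.log (1 + x) * (1 / (2 * (d + (2 - 2 * x))) - 1 / (2 * (d + 4))) +
      1 / (2 * (d + 4)) * Real.log (d + (2 - 2 * x)) +
      Real.log (1 - ξ) * (1 / (2 * (d + (2 - 2 * x)))))
      (1 / (d + (2 - 2 * x)) ^ 2 * Real.log ((1 + x) * (1 - ξ))) x := by
  have hD : 0 < d + (2 - 2 * x) := by linarith
  have hl : HasDerivAt (fun x : ℝ => Real.log (1 + x)) (1 / (1 + x)) x := by
    have h1 : HasDerivAt (fun x : ℝ => 1 + x) 1 x := by
      simpa using (hasDerivAt_id x).const_add (1 : ℝ)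
    exact h1.log hx.ne'
  have hK := s05_K d x hD
  have hL := s05_L d x hD
  have h := ((hl.mul (hK.sub_const (1 / (2 * (d + 4))))).add (hL.const_mul (1 / (2 * (d + 4))))).add
    (hK.const_mul (Real.log (1 - ξ)))
  refine h.congr_deriv ?_
  rw [Real.log_mul hx.ne' hξ.ne']
  have e : d + 4 = (d + (2 - 2 * x)) + 2 * (1 + x) := by ring
  rw [e]
  generalize d + (2 - 2 * x) = D at *
  generalize Real.log (1 + x) = a1 at *
  generalize Real.log (1 - ξ) = a2 at *
  generalize 1 + x = y at *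
  have h4 : D + 2 * y ≠ 0 := by positivity
  field_simp
  ring

theorem s05 : S05 := by
  intro d ξ hd hξ
  rw [abs_lt] at hξ
  obtain ⟨hξ1, hξ2⟩ := hξ
  have hp : 0 < 1 + ξ := by linarith
  have hm : 0 < 1 - ξ := by linarith
  have hD : 0 < d + (2 - 2 * ξ) := by linarith
  obtain ⟨g, hg⟩ : ∃ g : ℝ → ℝ, g = fun x => 1 / (d + (2 - 2 * x)) ^ 2 *
    Real.log (max ((1 + x) * (1 - ξ)) ((1 - x) * (1 + ξ))) := ⟨_, rfl⟩
  have hg1 : ∀ x ∈ Set.uIcc (-1) ξ, g x = 1 / (d + (2 - 2 * x)) ^ 2 *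
      Real.log ((1 - x) * (1 + ξ)) := by
    intro x hx
    rw [Set.uIcc_of_le hξ1.le] at hx
    rw [hg]
    show 1 / (d + (2 - 2 * x)) ^ 2 * Real.log (max ((1 + x) * (1 - ξ)) ((1 - x) * (1 + ξ))) = _
    rw [max_eq_right]
    have := hx.2
    nlinarith
  have hg2 : ∀ x ∈ Set.uIcc ξ 1, g x = 1 / (d + (2 - 2 * x)) ^ 2 *
      Real.log ((1 + x) * (1 - ξ)) := by
    intro x hx
    rw [Set.uIcc_of_le hξ2.le] at hx
    rw [hg]
    show 1 / (d + (2 - 2 * x)) ^ 2 * Real.log (max ((1 + x) * (1 - ξ)) ((1 - x) * (1 + ξ))) = _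
    rw [max_eq_left]
    have := hx.1
    nlinarith
  have hc1 : ContinuousOn (fun x : ℝ => 1 / (d + (2 - 2 * x)) ^ 2 *
      Real.log ((1 - x) * (1 + ξ))) (Set.uIcc (-1) ξ) := by
    rw [Set.uIcc_of_le hξ1.le]
    apply ContinuousOn.mul
    · apply ContinuousOn.div continuousOn_const (by fun_prop)
      intro x hx
      have := hx.2
      have : 0 < d + (2 - 2 * x) := by linarith
      positivity
    · apply ContinuousOn.log (by fun_prop)
      intro x hx
      have := hx.2
      have h3 : 0 < 1 - x := by linarith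
      positivity
  have hc2 : ContinuousOn (fun x : ℝ => 1 / (d + (2 - 2 * x)) ^ 2 *
      Real.log ((1 + x) * (1 - ξ))) (Set.uIcc ξ 1) := by
    rw [Set.uIcc_of_le hξ2.le]
    apply ContinuousOn.mul
    · apply ContinuousOn.div continuousOn_const (by fun_prop)
      intro x hx
      have := hx.2
      have : 0 < d + (2 - 2 * x) := by linarith
      positivity
    · apply ContinuousOn.log (by fun_prop)
      intro x hx
      have := hx.1
      have h3 : 0 < 1 + x := by linarith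
      positivity
  have hi1 : IntervalIntegrable g volume (-1) ξ :=
    (hc1.congr hg1).intervalIntegrable
  have hi2 : IntervalIntegrable g volume ξ 1 :=
    (hc2.congr hg2).intervalIntegrable
  have e1 : ∫ x in (-1 : ℝ)..ξ, g x = _ :=
    (intervalIntegral.integral_congr hg1).trans
      (intervalIntegral.integral_eq_sub_of_hasDerivAt (fun x hx => s05_A1 d ξ x hd (by
        rw [Set.uIcc_of_le hξ1.le] at hx
        have := hx.2
        linarith) hp) hc1.intervalIntegrable)
  have e2 : ∫ x in ξ..(1 : ℝ), g x = _ :=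
    (intervalIntegral.integral_congr hg2).trans
      (intervalIntegral.integral_eq_sub_of_hasDerivAt (fun x hx => s05_A2 d ξ x hd (by
        rw [Set.uIcc_of_le hξ2.le] at hx
        have := hx.1
        linarith) (by
        rw [Set.uIcc_of_le hξ2.le] at hx
        exact hx.2) hm) hc2.intervalIntegrable)
  have e3 := intervalIntegral.integral_add_adjacent_intervals hi1 hi2
  have e4 : ∫ x in (-1 : ℝ)..1, d * (4 + d) / (4 * Real.pi * (d + (2 - 2 * x)) ^ 2) *
      Real.log (max ((1 + x) * (1 - ξ)) ((1 - x) * (1 + ξ))) =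
      d * (4 + d) / (4 * Real.pi) * ∫ x in (-1 : ℝ)..1, g x := by
    rw [← intervalIntegral.integral_const_mul]
    congr 1
    funext x
    rw [hg]
    show _ = d * (4 + d) / (4 * Real.pi) * (1 / (d + (2 - 2 * x)) ^ 2 *
      Real.log (max ((1 + x) * (1 - ξ)) ((1 - x) * (1 + ξ))))
    rw [← mul_assoc]
    congr 1
    rw [div_mul_div_comm, mul_one]
  rw [e4, ← e3, e1, e2]
  have l1 : Real.log (1 + 4 / d) = Real.log (d + 4) - Real.log d := by
    rw [← Real.log_div (by positivity) hd.ne']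
    congr 1
    field_simp
  have l2 : Real.log (1 + d / 4) = Real.log (d + 4) - 2 * Real.log 2 := by
    have h4 : 2 * Real.log 2 = Real.log 4 := by
      rw [show (4 : ℝ) = 2 ^ 2 by norm_num, Real.log_pow]
      norm_num
    rw [h4, ← Real.log_div (by positivity) (by norm_num)]
    congr 1
    ring
  unfold cc
  rw [l1, l2]
  have r1 : d + (2 - 2 * (-1 : ℝ)) = d + 4 := by ring
  have r2 : d + (2 - 2 * (1 : ℝ)) = d := by ring
  have r3 : (1 : ℝ) - -1 = 2 := by norm_num
  have r4 : (1 : ℝ) + 1 = 2 := by norm_num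
  have r5 : 2 - 2 * ξ + d = d + (2 - 2 * ξ) := by ring
  rw [r1, r2, r3, r4, r5]
  have hpi := Real.pi_pos
  generalize Real.log (d + (2 - 2 * ξ)) = a1
  generalize Real.log (d + 4) = a2
  generalize Real.log d = a3
  generalize Real.log 2 = a4
  generalize Real.log (1 - ξ) = a5
  generalize Real.log (1 + ξ) = a6
  have h4 : (d + 4) ≠ 0 := by positivity
  field_simp
  ring

end H716Q
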