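import Pool.Agent.H716Q.Defs

/-! Task S06: kernel average of the logarithm at the pole (helper66). -/

set_option autoImplicit false

namespace H716Q

open MeasureTheory Set SqDist

namespace S06aux

theorem normsq3 (x : R3) : ‖x‖ ^ 2 = x 0 ^ 2 + x 1 ^ 2 + x 2 ^ 2 := by
  rw [EuclideanSpace.norm_sq_eq, Fin.sum_univ_three]
  simp [Real.norm_eq_abs, sq_abs]

theorem dist_e3 (a : R3) (ha : ‖a‖ = 1) : ‖e3 - a‖ ^ 2 = 2 - 2 * a 2 := by
  have h1 := normsq3 (e3 - a)
  have h2 := normsq3 a
  rw [ha] at h2
  have e0 : (e3 - a) 0 = 0 - a 0 := rfl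
  have e1 : (e3 - a) 1 = 0 - a 1 := rfl
  have e2 : (e3 - a) 2 = 1 - a 2 := rfl
  rw [e0, e1, e2] at h1
  rw [h1]
  linear_combination -h2

theorem cont_int (d η : ℝ) (hd : 0 < d) (hη : 0 < η) (a : R3) (ha : ‖a‖ = 1) (b : ℕ → R3)
    (hb : ∀ k, ‖b k‖ = 1) (hlim : Filter.Tendsto b Filter.atTop (nhds a)) :
    Filter.Tendsto (fun k => ∫ v, kk d e3 v * Real.log (‖v - b k‖ ^ 2 + η) ∂sph) Filter.atTop
      (nhds (∫ v, kk d e3 v * Real.log (‖v - a‖ ^ 2 + η) ∂sph)) := by
  have hfin := sph_finite
  have hkc : Continuous (fun v : R3 => kk d e3 v) := by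
    unfold kk
    refine continuous_const.div ?_ ?_
    · fun_prop
    · intro v
      have : 0 < d + ‖e3 - v‖ ^ 2 := by positivity
      positivity
  have hlc : ∀ a : R3, Continuous (fun v : R3 => Real.log (‖v - a‖ ^ 2 + η)) := by
    intro a
    refine Continuous.log (by fun_prop) ?_
    intro v
    have : 0 < ‖v - a‖ ^ 2 + η := by positivity
    exact this.ne'
  refine tendsto_integral_of_dominated_convergence
    (fun _ => d * (4 + d) / (4 * Real.pi * d ^ 2) * (|Real.log η| + |Real.log (4 + η)|)) ?_ ?_ ?_ ?_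
  · intro k
    exact (hkc.mul (hlc _)).aestronglyMeasurable
  · exact integrable_const _
  · intro k
    filter_upwards [sph_ae] with v hv
    have hpi := Real.pi_pos
    have hk0 : 0 ≤ kk d e3 v := by
      unfold kk
      positivity
    have hk1 : kk d e3 v ≤ d * (4 + d) / (4 * Real.pi * d ^ 2) := by
      unfold kk
      refine div_le_div_of_nonneg_left (by positivity) (by positivity) ?_
      refine mul_le_mul_of_nonneg_left ?_ (by positivity)
      refine pow_le_pow_left₀ hd.le ?_ 2
      have : 0 ≤ ‖e3 - v‖ ^ 2 := by positivity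
      linarith
    have h4 : ‖v - b k‖ ^ 2 ≤ 4 := by
      have h5 : ‖v - b k‖ ≤ 2 := by
        refine (norm_sub_le _ _).trans ?_
        rw [hv, hb]
        norm_num
      nlinarith [norm_nonneg (v - b k)]
    have h6 : Real.log η ≤ Real.log (‖v - b k‖ ^ 2 + η) :=
      Real.log_le_log hη (by nlinarith [norm_nonneg (v - b k)])
    have h7 : Real.log (‖v - b k‖ ^ 2 + η) ≤ Real.log (4 + η) :=
      Real.log_le_log (by positivity) (by linarith)
    have h8 : |Real.log (‖v - b k‖ ^ 2 + η)| ≤ |Real.log η| + |Real.log (4 + η)| := by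
      rw [abs_le]
      constructor
      · have := neg_abs_le (Real.log η)
        have := abs_nonneg (Real.log (4 + η))
        linarith
      · have := le_abs_self (Real.log (4 + η))
        have := abs_nonneg (Real.log η)
        linarith
    rw [norm_mul, Real.norm_eq_abs, Real.norm_eq_abs, abs_of_nonneg hk0]
    exact mul_le_mul hk1 h8 (abs_nonneg _) (hk0.trans hk1)
  · filter_upwards with v
    refine Filter.Tendsto.mul tendsto_const_nhds ?_
    have hcont : Continuous (fun a : R3 => Real.log (‖v - a‖ ^ 2 + η)) := by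
      refine Continuous.log (by fun_prop) ?_
      intro a
      have : 0 < ‖v - a‖ ^ 2 + η := by positivity
      exact this.ne'
    exact (hcont.tendsto a).comp hlim

end S06aux

open S06aux in
theorem s06 (h04 : S04) (h05 : S05) : S06 := by
  intro d η a hd hη ha
  have hlt : ∀ b : R3, ‖b‖ = 1 → |b 2| < 1 → Real.log (‖e3 - b‖ ^ 2 + d) - cc d ≤
      ∫ v, kk d e3 v * Real.log (‖v - b‖ ^ 2 + η) ∂sph := by
    intro b hb hb2
    have h1 := h04 d η b hd hη hb hb2
    have h2 := h05 d (b 2) hd hb2
    rw [dist_e3 b hb, h2]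
    exact h1
  have ha2 := normsq3 a
  rw [ha] at ha2
  have habs : |a 2| ≤ 1 := by
    rw [← sq_le_one_iff_abs_le_one]
    nlinarith [sq_nonneg (a 0), sq_nonneg (a 1)]
  rcases lt_or_eq_of_le habs with h | h
  · exact hlt a ha h
  · have hsq : a 2 ^ 2 = 1 := by
      rw [← sq_abs, h]
      norm_num
    have h0 : a 0 = 0 := by
      have : a 0 ^ 2 ≤ 0 := by nlinarith [sq_nonneg (a 1)]
      exact pow_eq_zero_iff (two_ne_zero) |>.1 (le_antisymm this (sq_nonneg _))
    have h1 : a 1 = 0 := by
      have : a 1 ^ 2 ≤ 0 := by nlinarith [sq_nonneg (a 0)]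
      exact pow_eq_zero_iff (two_ne_zero) |>.1 (le_antisymm this (sq_nonneg _))
    set t : ℕ → ℝ := fun k => 1 / ((k : ℝ) + 1) with ht
    set b : ℕ → R3 := fun k => !₂[Real.sin (t k), 0, a 2 * Real.cos (t k)] with hb
    have hbn : ∀ k, ‖b k‖ = 1 := by
      intro k
      have h2 := normsq3 (b k)
      have e0 : (b k) 0 = Real.sin (t k) := rfl
      have e1 : (b k) 1 = 0 := rfl
      have e2 : (b k) 2 = a 2 * Real.cos (t k) := rfl
      rw [e0, e1, e2, mul_pow, hsq, one_mul] at h2
      have h3 : ‖b k‖ ^ 2 = 1 := by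
        rw [h2]
        linear_combination Real.sin_sq_add_cos_sq (t k)
      have h4 := norm_nonneg (b k)
      nlinarith
    have htpos : ∀ k, 0 < t k := fun k => by
      rw [ht]
      positivity
    have htle : ∀ k, t k ≤ 1 := fun k => by
      rw [ht]
      dsimp only
      rw [div_le_one (by positivity)]
      have : (0 : ℝ) ≤ k := Nat.cast_nonneg k
      linarith
    have hb2 : ∀ k, |(b k) 2| < 1 := by
      intro k
      have e2 : (b k) 2 = a 2 * Real.cos (t k) := rfl
      rw [e2, abs_mul, h, one_mul]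
      have hpi := Real.pi_gt_three
      have hs : 0 < Real.sin (t k) := Real.sin_pos_of_pos_of_lt_pi (htpos k) (by linarith [htle k])
      have h5 := Real.sin_sq_add_cos_sq (t k)
      rw [← sq_lt_one_iff_abs_lt_one]
      nlinarith [mul_pos hs hs]
    have htl : Filter.Tendsto t Filter.atTop (nhds 0) := tendsto_one_div_add_atTop_nhds_zero_nat
    have hbl : Filter.Tendsto b Filter.atTop (nhds a) := by
      have hc : Continuous (fun s : ℝ => (!₂[Real.sin s, 0, a 2 * Real.cos s] : R3)) := by
        refine (PiLp.continuous_toLp 2 _).comp ?_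
        refine continuous_pi ?_
        intro i
        fin_cases i
        · exact Real.continuous_sin
        · exact continuous_const
        · exact continuous_const.mul Real.continuous_cos
      have h6 := (hc.tendsto 0).comp htl
      have h7 : (!₂[Real.sin 0, 0, a 2 * Real.cos 0] : R3) = a := by
        rw [Real.sin_zero, Real.cos_zero, mul_one]
        ext i
        fin_cases i
        · exact h0.symm
        · exact h1.symm
        · rfl
      rw [h7] at h6
      exact h6
    have hcl : Continuous (fun b : R3 => Real.log (‖e3 - b‖ ^ 2 + d) - cc d) := by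
      refine Continuous.sub (Continuous.log (by fun_prop) ?_) continuous_const
      intro b
      have : 0 < ‖e3 - b‖ ^ 2 + d := by positivity
      exact this.ne'
    exact le_of_tendsto_of_tendsto' ((hcl.tendsto a).comp hbl)
      (cont_int d η hd hη a ha b hbn hbl) (fun k => hlt (b k) (hbn k) (hb2 k))

end H716Q
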