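import Pool.Agent.H716Q.Defs

set_option autoImplicit false

namespace H716Q

open MeasureTheory Set SqDist

theorem s07_norm_e3 : ‖e3‖ = 1 := by
  unfold e3
  rw [EuclideanSpace.norm_eq]
  simp [Fin.sum_univ_three]

theorem s07_int (e : R3 ≃ₗᵢ[ℝ] R3) (F : R3 → ℝ) : ∫ v, F (e v) ∂sph = ∫ v, F v ∂sph := by
  conv_rhs => rw [← sph_rot e]
  exact (e.toHomeomorph.measurableEmbedding.integral_map F).symm

theorem s07 (h06 : S06) : S07 := by
  intro d η w a hd hη hw ha
  set e : R3 ≃ₗᵢ[ℝ] R3 := Submodule.reflection (Submodule.span ℝ {w - e3})ᗮ with he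
  have hew : e w = e3 := Submodule.reflection_sub (hw.trans s07_norm_e3.symm)
  have h := h06 d η (e a) hd hη ((e.norm_map a).trans ha)
  have h1 : ‖e3 - e a‖ = ‖w - a‖ := by rw [← hew, ← map_sub, e.norm_map]
  have h2 : ∫ v, kk d w v * Real.log (‖v - a‖ ^ 2 + η) ∂sph =
      ∫ v, kk d e3 v * Real.log (‖v - e a‖ ^ 2 + η) ∂sph := by
    rw [← s07_int e (fun v => kk d e3 v * Real.log (‖v - e a‖ ^ 2 + η))]
    congr 1
    funext v
    unfold kk
    rw [← map_sub e v a, e.norm_map]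
    have h3 : ‖e3 - e v‖ = ‖w - v‖ := by rw [← hew, ← map_sub, e.norm_map]
    rw [h3]
  rw [h2]
  rw [h1] at h
  exact h

end H716Q
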