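import Pool.Agent.H716Q.Defs

set_option autoImplicit false

namespace H716Q

open MeasureTheory Set SqDist

namespace S08aux

theorem cint {F : R3 → ℝ} (hF : Continuous F) : Integrable F sph := by
  have := cont_int899 hF 1
  simpa using this

theorem cc_nonneg (d : ℝ) (hd : 0 < d) : 0 ≤ cc d := by
  unfold cc
  have h1 : 0 ≤ Real.log (1 + d / 4) := Real.log_nonneg (by linarith [div_pos hd (by norm_num : (0:ℝ) < 4)])
  have h2 : 0 ≤ Real.log (1 + 4 / d) := Real.log_nonneg (by
    have : 0 < 4 / d := by positivity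
    linarith)
  positivity

theorem kk_cont (d : ℝ) (hd : 0 < d) (w : R3) : Continuous (fun v => kk d w v) := by
  unfold kk
  apply Continuous.div
  · exact continuous_const
  · fun_prop
  · intro v
    have : 0 < d + ‖w - v‖ ^ 2 := by positivity
    positivity

theorem kk_nonneg (d : ℝ) (hd : 0 < d) (w v : R3) : 0 ≤ kk d w v := by
  unfold kk
  positivity

theorem lg_cont (η : ℝ) (hη : 0 < η) (a : R3) : Continuous (fun v : R3 => Real.log (‖v - a‖ ^ 2 + η)) := by
  apply Continuous.log
  · fun_prop
  · intro v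
    have : 0 < ‖v - a‖ ^ 2 + η := by positivity
    exact this.ne'

/-- concavity -/
theorem conc (X D d' : ℝ) (hX : 0 < X) (hD : 0 < D) (hd' : 0 ≤ d') :
    Real.log (D + d') + D / (D + d') * (Real.log X - Real.log D) ≤ Real.log (X + d') := by
  have hDd : 0 < D + d' := by linarith
  have h1 : Real.log (X / D) * (D / (D + d')) ≤ Real.log ((X + d') / (D + d')) := by
    have hc := strictConcaveOn_log_Ioi.concaveOn.2 (x := X / D) (y := 1)
      (Set.mem_Ioi.2 (by positivity)) (Set.mem_Ioi.2 one_pos)
      (show 0 ≤ D / (D + d') by positivity) (show 0 ≤ d' / (D + d') by positivity)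
      (by field_simp)
    simp only [smul_eq_mul, Real.log_one, mul_zero, add_zero, mul_one] at hc
    have e1 : D / (D + d') * (X / D) + d' / (D + d') = (X + d') / (D + d') := by field_simp
    rw [e1] at hc
    linarith
  rw [Real.log_div hX.ne' hD.ne', Real.log_div (by linarith) hDd.ne'] at h1
  linarith

/-- geometry of the unit sphere -/
theorem geo (v a u : R3) (al : ℝ) (hal : 0 < al) (hv : ‖v‖ = 1) (hu : ‖u‖ = 1) (ha : a = al • u)
    (r : ℝ) (hr : 0 < r) :
    ‖r • v - a‖ ^ 2 = r * al * (‖v - u‖ ^ 2 + (r - al) ^ 2 / (r * al)) := by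
  have e1 : ‖v - u‖ ^ 2 = 2 - 2 * inner ℝ v u := by
    rw [norm_sub_sq_real, hv, hu]; ring
  have e2 : ‖r • v - a‖ ^ 2 = r ^ 2 - 2 * (r * al) * inner ℝ v u + al ^ 2 := by
    rw [norm_sub_sq_real, ha, norm_smul, norm_smul, hv, hu, Real.norm_of_nonneg hr.le,
      Real.norm_of_nonneg hal.le, inner_smul_left, inner_smul_right]
    simp
    ring
  rw [e1, e2]
  field_simp
  ring

end S08aux

open S08aux in
theorem s08 (h02 : S02) (h07 : S07) : S08 := by
  intro r η w a hr hr1 hη hw ha hne
  have hd : 0 < dl r := by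
    unfold dl
    have : 0 < 1 - r := by linarith
    positivity
  have hcc := cc_nonneg _ hd
  have hk1 := h02 (dl r) hd w hw
  have hkc := kk_cont (dl r) hd w
  by_cases ha0 : a = 0
  · subst ha0
    have e1 : ‖r • w - 0‖ ^ 2 = r ^ 2 := by
      rw [sub_zero, norm_smul, hw, mul_one, Real.norm_of_nonneg hr.le]
    have e2 : Real.log (r ^ 2) = 2 * Real.log r := by rw [Real.log_pow]; norm_num
    have e3 : Real.log r ≤ 0 := Real.log_nonpos hr.le hr1.le
    have e4 : 0 ≤ ∫ v, kk (dl r) w v * Real.log (‖v - 0‖ ^ 2 + η) ∂sph := by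
      apply integral_nonneg_of_ae
      filter_upwards [sph_ae] with v hv
      have : 0 ≤ Real.log (‖v - 0‖ ^ 2 + η) := by
        apply Real.log_nonneg
        rw [sub_zero, hv]
        linarith
      exact mul_nonneg (kk_nonneg _ hd w v) this
    rw [e1, e2]
    linarith
  · obtain ⟨al, hal⟩ : ∃ al, al = ‖a‖ := ⟨_, rfl⟩
    have hal0 : 0 < al := by rw [hal]; exact norm_pos_iff.2 ha0
    have hal1 : al ≤ 1 := by rw [hal]; exact ha
    obtain ⟨u, hu⟩ : ∃ u : R3, u = al⁻¹ • a := ⟨_, rfl⟩
    have hau : a = al • u := by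
      rw [hu, smul_smul, mul_inv_cancel₀ hal0.ne', one_smul]
    have hun : ‖u‖ = 1 := by
      rw [hu, norm_smul, ← hal, Real.norm_of_nonneg (by positivity), inv_mul_cancel₀ hal0.ne']
    obtain ⟨d', hd'⟩ : ∃ d', d' = (1 - al) ^ 2 / al := ⟨_, rfl⟩
    have hd'0 : 0 ≤ d' := by rw [hd']; positivity
    obtain ⟨q, hq⟩ : ∃ q, q = ‖w - u‖ ^ 2 := ⟨_, rfl⟩
    have hq0 : 0 ≤ q := by rw [hq]; positivity
    have h7 := h07 (dl r) η w u hd hη hw hun
    rw [← hq] at h7
    set D := q + dl r with hD
    have hD0 : 0 < D := by linarith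
    obtain ⟨lam, hlam⟩ : ∃ lam, lam = D / (D + d') := ⟨_, rfl⟩
    have hlam0 : 0 ≤ lam := by rw [hlam]; positivity
    have hlam1 : lam ≤ 1 := by rw [hlam]; exact (div_le_one (by linarith)).2 (by linarith)
    -- the pointwise bound
    have hpt : ∀ᵐ v ∂sph, kk (dl r) w v * (Real.log al + Real.log (D + d') - lam * Real.log D) +
        lam * (kk (dl r) w v * Real.log (‖v - u‖ ^ 2 + η)) ≤
        kk (dl r) w v * Real.log (‖v - a‖ ^ 2 + η) := by
      filter_upwards [sph_ae] with v hv
      have g1 := geo v a u al hal0 hv hun hau 1 one_pos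
      rw [one_smul, one_mul, ← hd'] at g1
      have hX : 0 < ‖v - u‖ ^ 2 + η := by positivity
      have g2 : al * ((‖v - u‖ ^ 2 + η) + d') ≤ ‖v - a‖ ^ 2 + η := by
        rw [g1]
        nlinarith
      have g3 := conc (‖v - u‖ ^ 2 + η) D d' hX hD0 hd'0
      rw [← hlam] at g3
      have g4 : Real.log al + Real.log ((‖v - u‖ ^ 2 + η) + d') ≤ Real.log (‖v - a‖ ^ 2 + η) := by
        rw [← Real.log_mul hal0.ne' (by positivity)]
        exact Real.log_le_log (by positivity) g2
      have hk := kk_nonneg _ hd w v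
      have g5 : (Real.log al + Real.log (D + d') - lam * Real.log D) +
          lam * Real.log (‖v - u‖ ^ 2 + η) ≤ Real.log (‖v - a‖ ^ 2 + η) := by linarith
      calc _ = kk (dl r) w v * ((Real.log al + Real.log (D + d') - lam * Real.log D) +
          lam * Real.log (‖v - u‖ ^ 2 + η)) := by ring
        _ ≤ _ := mul_le_mul_of_nonneg_left g5 hk
    have i1 : Integrable (fun v => kk (dl r) w v *
        (Real.log al + Real.log (D + d') - lam * Real.log D)) sph :=
      cint (hkc.mul continuous_const)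
    have i2 : Integrable (fun v => lam * (kk (dl r) w v * Real.log (‖v - u‖ ^ 2 + η))) sph :=
      cint (continuous_const.mul (hkc.mul (lg_cont η hη u)))
    have i3 : Integrable (fun v => kk (dl r) w v * Real.log (‖v - a‖ ^ 2 + η)) sph :=
      cint (hkc.mul (lg_cont η hη a))
    have hI := integral_mono_ae (i1.add i2) i3 hpt
    have hI2 : ∫ v, ((fun v => kk (dl r) w v * (Real.log al + Real.log (D + d') - lam * Real.log D)) +
        (fun v => lam * (kk (dl r) w v * Real.log (‖v - u‖ ^ 2 + η)))) v ∂sph =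
        (Real.log al + Real.log (D + d') - lam * Real.log D) +
        lam * ∫ v, kk (dl r) w v * Real.log (‖v - u‖ ^ 2 + η) ∂sph := by
      simp only [Pi.add_apply]
      rw [integral_add i1 i2, integral_mul_const, hk1, one_mul, integral_const_mul]
    rw [hI2] at hI
    refine le_trans ?_ hI
    -- the left side
    have g6 := geo w a u al hal0 hw hun hau r hr
    rw [← hq] at g6
    have hpos : 0 < ‖r • w - a‖ ^ 2 := by
      have : 0 < ‖r • w - a‖ := norm_pos_iff.2 (sub_ne_zero.2 hne)
      positivity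
    have hs : (r - al) ^ 2 / (r * al) ≤ dl r + d' := by
      have e1 : dl r + d' - (r - al) ^ 2 / (r * al) = (r + al) * (1 - r) * (1 - al) / (r * al) := by
        rw [hd']
        unfold dl
        field_simp
        ring
      have e2 : 0 ≤ (r + al) * (1 - r) * (1 - al) / (r * al) := by
        have : 0 ≤ 1 - r := by linarith
        have : 0 ≤ 1 - al := by linarith
        positivity
      linarith
    have e3 : Real.log (‖r • w - a‖ ^ 2) ≤ Real.log r + Real.log al + Real.log (D + d') := by
      rw [← Real.log_mul hr.ne' hal0.ne', ← Real.log_mul (by positivity) (by linarith)]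
      apply Real.log_le_log hpos
      rw [g6]
      apply mul_le_mul_of_nonneg_left _ (by positivity)
      linarith
    have e4 : lam * (Real.log D - cc (dl r)) ≤
        lam * ∫ v, kk (dl r) w v * Real.log (‖v - u‖ ^ 2 + η) ∂sph :=
      mul_le_mul_of_nonneg_left h7 hlam0
    have e5 : lam * cc (dl r) ≤ cc (dl r) := by nlinarith
    linarith

end H716Q
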