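import Pool.Agent.H716Q.Defs

set_option autoImplicit false

namespace H716Q

open MeasureTheory Set SqDist

namespace S09aux

theorem kk_cont (d : ℝ) (hd : 0 < d) (w : R3) : Continuous (kk d w) := by
  unfold kk
  refine continuous_const.div (by fun_prop) ?_
  intro v
  have : 0 < d + ‖w - v‖ ^ 2 := by positivity
  have hpi := Real.pi_pos
  positivity

theorem kk_nonneg (d : ℝ) (hd : 0 < d) (w v : R3) : 0 ≤ kk d w v := by
  unfold kk
  have hpi := Real.pi_pos
  positivity

theorem cint {F : R3 → ℝ} (hF : Continuous F) : Integrable F sph := by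
  simpa using cont_int899 hF 1

end S09aux

theorem s09 (h02 : S02) (h08 : S08) : S09 := by
  intro m Y r η w hr hr1 hη hw hY
  have hd : 0 < dl r := by
    unfold dl
    have : 0 < 1 - r := by linarith
    positivity
  have hKc := S09aux.kk_cont (dl r) hd w
  have hK0 := S09aux.kk_nonneg (dl r) hd w
  have hph : 0 < ph r := by
    unfold ph
    positivity
  have hRnn : 0 ≤ ∫ v, kk (dl r) w v * ∏ k, (‖v - Y k‖ ^ 2 + η) ∂sph := by
    apply integral_nonneg
    intro v
    exact mul_nonneg (hK0 v) (Finset.prod_nonneg fun k _ => by positivity)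
  by_cases hex : ∃ k, r • w = Y k
  · obtain ⟨k, hk⟩ := hex
    have h0 : ∏ k, ‖r • w - Y k‖ ^ 2 = 0 := by
      apply Finset.prod_eq_zero (Finset.mem_univ k)
      rw [hk, sub_self, norm_zero]
      norm_num
    rw [h0]
    exact mul_nonneg (pow_nonneg hph.le m) hRnn
  · push Not at hex
    have hpos : ∀ (v : R3) (k : Fin m), 0 < ‖v - Y k‖ ^ 2 + η := fun v k => by positivity
    have hlc : ∀ k : Fin m, Continuous fun v : R3 => Real.log (‖v - Y k‖ ^ 2 + η) := by
      intro k
      apply Continuous.log
      · fun_prop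
      · intro v
        exact (hpos v k).ne'
    set L : R3 → ℝ := fun v => ∑ k, Real.log (‖v - Y k‖ ^ 2 + η) with hL
    have hLc : Continuous L := continuous_finsetSum _ fun k _ => hlc k
    have hP : ∀ v : R3, ∏ k, (‖v - Y k‖ ^ 2 + η) = Real.exp (L v) := by
      intro v
      rw [hL]
      simp only
      rw [Real.exp_sum]
      exact Finset.prod_congr rfl fun k _ => (Real.exp_log (hpos v k)).symm
    have hx0 : ∫ v, kk (dl r) w v * L v ∂sph
        = ∑ k, ∫ v, kk (dl r) w v * Real.log (‖v - Y k‖ ^ 2 + η) ∂sph := by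
      rw [← integral_finsetSum]
      · refine integral_congr_ae (Filter.Eventually.of_forall fun v => ?_)
        simp only [hL, Finset.mul_sum]
      · intro k _
        exact S09aux.cint (hKc.mul (hlc k))
    set x0 : ℝ := ∫ v, kk (dl r) w v * L v ∂sph with hx0def
    have hsum : ∑ k, (Real.log (‖r • w - Y k‖ ^ 2) - Real.log r - cc (dl r)) ≤ x0 := by
      rw [hx0]
      exact Finset.sum_le_sum fun k _ => h08 r η w (Y k) hr hr1 hη hw (hY k) (hex k)
    have hnz : ∀ k, 0 < ‖r • w - Y k‖ ^ 2 := by
      intro k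
      have : 0 < ‖r • w - Y k‖ := norm_pos_iff.mpr (sub_ne_zero.mpr (hex k))
      positivity
    have hl : ∏ k, ‖r • w - Y k‖ ^ 2 = Real.exp (∑ k, Real.log (‖r • w - Y k‖ ^ 2)) := by
      rw [Real.exp_sum]
      exact Finset.prod_congr rfl fun k _ => (Real.exp_log (hnz k)).symm
    have hs2 : ∑ k, (Real.log (‖r • w - Y k‖ ^ 2) - Real.log r - cc (dl r))
        = ∑ k, Real.log (‖r • w - Y k‖ ^ 2) - m * (Real.log r + cc (dl r)) := by
      rw [Finset.sum_sub_distrib, Finset.sum_sub_distrib]
      simp only [Finset.sum_const, Finset.card_univ, Fintype.card_fin, nsmul_eq_mul]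
      ring
    have hphm : ph r ^ m = Real.exp (m * (Real.log r + cc (dl r))) := by
      rw [Real.exp_nat_mul, Real.exp_add, Real.exp_log hr]
      rfl
    have h1 : ∏ k, ‖r • w - Y k‖ ^ 2 ≤ ph r ^ m * Real.exp x0 := by
      rw [hl, hphm, ← Real.exp_add]
      apply Real.exp_le_exp.mpr
      rw [hs2] at hsum
      linarith
    have h2 : Real.exp x0 ≤ ∫ v, kk (dl r) w v * ∏ k, (‖v - Y k‖ ^ 2 + η) ∂sph := by
      have hKi : Integrable (kk (dl r) w) sph := S09aux.cint hKc
      have hKLi : Integrable (fun v => kk (dl r) w v * L v) sph := S09aux.cint (hKc.mul hLc)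
      have e1 : ∫ v, (Real.exp x0 * (1 - x0)) * kk (dl r) w v
            + Real.exp x0 * (kk (dl r) w v * L v) ∂sph = Real.exp x0 := by
        rw [integral_add (hKi.const_mul _) (hKLi.const_mul _), integral_const_mul,
          integral_const_mul, h02 (dl r) hd w hw, ← hx0def]
        ring
      have hPc : Continuous fun v : R3 => ∏ k, (‖v - Y k‖ ^ 2 + η) := by fun_prop
      have h3 : ∫ v, (Real.exp x0 * (1 - x0)) * kk (dl r) w v
            + Real.exp x0 * (kk (dl r) w v * L v) ∂sph
          ≤ ∫ v, kk (dl r) w v * ∏ k, (‖v - Y k‖ ^ 2 + η) ∂sph := by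
        refine integral_mono ((hKi.const_mul _).add (hKLi.const_mul _))
          (S09aux.cint (hKc.mul hPc)) ?_
        intro v
        have h4 : Real.exp x0 * (1 + (L v - x0)) ≤ Real.exp (L v) := by
          have h5 := Real.add_one_le_exp (L v - x0)
          have h6 : Real.exp (L v) = Real.exp x0 * Real.exp (L v - x0) := by
            rw [← Real.exp_add]
            congr 1
            ring
          rw [h6]
          exact mul_le_mul_of_nonneg_left (by linarith) (Real.exp_pos _).le
        have h7 := mul_le_mul_of_nonneg_left h4 (hK0 v)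
        simp only
        rw [hP v]
        calc Real.exp x0 * (1 - x0) * kk (dl r) w v + Real.exp x0 * (kk (dl r) w v * L v)
            = kk (dl r) w v * (Real.exp x0 * (1 + (L v - x0))) := by ring
          _ ≤ _ := h7
      rw [e1] at h3
      exact h3
    calc ∏ k, ‖r • w - Y k‖ ^ 2 ≤ ph r ^ m * Real.exp x0 := h1
      _ ≤ _ := mul_le_mul_of_nonneg_left h2 (pow_nonneg hph.le m)

end H716Q
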