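import Pool.Agent.H716Q.Defs

set_option autoImplicit false

namespace H716Q

open MeasureTheory Set SqDist Filter Topology

namespace S10aux

theorem int_cont (F : R3 → ℝ) (hF : Continuous F) : Integrable F sph := by
  simpa using cont_int899 hF 1

theorem kk_cont (d : ℝ) (hd : 0 < d) : Continuous (fun p : R3 × R3 => kk d p.1 p.2) := by
  unfold kk
  refine Continuous.div continuous_const (by fun_prop) ?_
  intro p
  have h1 : 0 < d + ‖p.1 - p.2‖ ^ 2 := by positivity
  have h2 : 0 < 4 * Real.pi * (d + ‖p.1 - p.2‖ ^ 2) ^ 2 := by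
    have := Real.pi_pos
    positivity
  exact h2.ne'

theorem kk_nonneg (d : ℝ) (hd : 0 < d) (w v : R3) : 0 ≤ kk d w v := by
  unfold kk
  have := Real.pi_pos
  positivity

theorem kk_bound (d : ℝ) (hd : 0 < d) (w v : R3) :
    kk d w v ≤ d * (4 + d) / (4 * Real.pi * d ^ 2) := by
  unfold kk
  have hpi := Real.pi_pos
  have h1 : d ^ 2 ≤ (d + ‖w - v‖ ^ 2) ^ 2 := by
    apply pow_le_pow_left₀ hd.le
    have : 0 ≤ ‖w - v‖ ^ 2 := by positivity
    linarith
  apply div_le_div_of_nonneg_left (by positivity) (by positivity)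
  apply mul_le_mul_of_nonneg_left h1 (by positivity)

theorem kk_symm (d : ℝ) (w v : R3) : kk d w v = kk d v w := by
  unfold kk
  rw [norm_sub_rev]

theorem P_cont (m : ℕ) (Y : Fin m → R3) (η : ℝ) :
    Continuous (fun v : R3 => ∏ k, (‖v - Y k‖ ^ 2 + η)) := by
  apply continuous_finset_prod
  intro k _
  fun_prop

theorem prod_int (m : ℕ) (Y : Fin m → R3) (η d : ℝ) (hd : 0 < d) :
    Integrable (Function.uncurry fun w v : R3 => kk d w v * ∏ k, (‖v - Y k‖ ^ 2 + η))
      (sph.prod sph) := by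
  have := sph_finite
  have hP := P_cont m Y η
  obtain ⟨C, hC⟩ := (isCompact_closedBall (0 : R3) 1).exists_bound_of_continuousOn hP.continuousOn
  have hcont : Continuous (Function.uncurry fun w v : R3 =>
      kk d w v * ∏ k, (‖v - Y k‖ ^ 2 + η)) := by
    exact (kk_cont d hd).mul (hP.comp continuous_snd)
  refine Integrable.of_bound hcont.aestronglyMeasurable
    (d * (4 + d) / (4 * Real.pi * d ^ 2) * C) ?_
  have hae : ∀ᵐ p ∂(sph.prod sph), ‖p.2‖ = 1 :=
    (Measure.quasiMeasurePreserving_snd (μ := sph) (ν := sph)).ae sph_ae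
  filter_upwards [hae] with p hp
  have h1 := hC p.2 (by rw [mem_closedBall_zero_iff]; exact hp.le)
  have h2 := kk_bound d hd p.1 p.2
  have h3 := kk_nonneg d hd p.1 p.2
  show ‖kk d p.1 p.2 * ∏ k, (‖p.2 - Y k‖ ^ 2 + η)‖ ≤ _
  rw [norm_mul, Real.norm_of_nonneg h3]
  exact mul_le_mul h2 h1 (norm_nonneg _) (h3.trans h2)

theorem step (h02 : S02) (m : ℕ) (Y : Fin m → R3) (η d : ℝ) (hd : 0 < d) :
    ∫ w, ∫ v, kk d w v * ∏ k, (‖v - Y k‖ ^ 2 + η) ∂sph ∂sph =
      ∫ v, ∏ k, (‖v - Y k‖ ^ 2 + η) ∂sph := by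
  have := sph_finite
  rw [integral_integral_swap (prod_int m Y η d hd)]
  apply integral_congr_ae
  filter_upwards [sph_ae] with v hv
  show ∫ w, kk d w v * ∏ k, (‖v - Y k‖ ^ 2 + η) ∂sph = _
  rw [integral_mul_const]
  have h1 : ∫ w, kk d w v ∂sph = 1 := by
    have h2 := h02 d hd v hv
    rw [← h2]
    apply integral_congr_ae
    filter_upwards with w
    exact kk_symm d w v
  rw [h1, one_mul]

end S10aux

open S10aux in
theorem s10 (h02 : S02) (h09 : S09) : S10 := by
  intro m Y r hr0 hr1 hY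
  have := sph_finite
  have hd : 0 < dl r := by
    unfold dl
    have : 0 < 1 - r := by linarith
    positivity
  have hFc : Continuous (fun w : R3 => ∏ k, ‖r • w - Y k‖ ^ 2) := by
    apply continuous_finset_prod
    intro k _
    fun_prop
  have key : ∀ η : ℝ, 0 < η → ∫ w, ∏ k, ‖r • w - Y k‖ ^ 2 ∂sph ≤
      ph r ^ m * ∫ v, ∏ k, (‖v - Y k‖ ^ 2 + η) ∂sph := by
    intro η hη
    rw [← step h02 m Y η (dl r) hd, ← integral_const_mul]
    apply integral_mono_ae (int_cont _ hFc)
    · exact ((prod_int m Y η (dl r) hd).integral_prod_left).const_mul _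
    · filter_upwards [sph_ae] with w hw
      exact h09 m Y r η w hr0 hr1 hη hw hY
  have hlim : Tendsto (fun n : ℕ => ∫ v, ∏ k, (‖v - Y k‖ ^ 2 + 1 / ((n : ℝ) + 1)) ∂sph) atTop
      (𝓝 (∫ v, ∏ k, ‖v - Y k‖ ^ 2 ∂sph)) := by
    apply tendsto_integral_of_dominated_convergence (fun v : R3 => ∏ k, (‖v - Y k‖ ^ 2 + 1))
    · intro n
      exact (P_cont m Y _).aestronglyMeasurable
    · exact int_cont _ (P_cont m Y 1)
    · intro n
      filter_upwards with v
      have h0 : (0 : ℝ) < 1 / ((n : ℝ) + 1) := by positivity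
      have h1 : 1 / ((n : ℝ) + 1) ≤ 1 := by
        rw [div_le_one (by positivity)]
        have : (0 : ℝ) ≤ n := Nat.cast_nonneg n
        linarith
      rw [Real.norm_of_nonneg (Finset.prod_nonneg fun k _ => by positivity)]
      apply Finset.prod_le_prod
      · intro k _
        positivity
      · intro k _
        linarith
    · filter_upwards with v
      apply tendsto_finset_prod
      intro k _
      have h2 : Tendsto (fun n : ℕ => ‖v - Y k‖ ^ 2 + 1 / ((n : ℝ) + 1)) atTop
          (𝓝 (‖v - Y k‖ ^ 2 + 0)) := tendsto_const_nhds.add tendsto_one_div_add_atTop_nhds_zero_nat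
      rwa [add_zero] at h2
  refine ge_of_tendsto' (hlim.const_mul (ph r ^ m)) fun n => ?_
  exact key _ (by positivity)

end H716Q
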