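import Pool.Agent.H716Q.Defs

set_option autoImplicit false

namespace H716Q

open MeasureTheory Set SqDist

theorem s11_meas : Measurable ph := by
  unfold ph cc dl
  fun_prop

theorem s11_int (h14 : S14) (m : ℕ) :
    ∫⁻ t in Ioo (0 : ℝ) 1, ENNReal.ofReal (t ^ 2 * ph t ^ m) = ENNReal.ofReal (JJ m) := by
  have hm : Measurable fun t : ℝ => t ^ 2 * ph t ^ m :=
    (measurable_id.pow_const 2).mul (s11_meas.pow_const m)
  have hb : ∀ t ∈ Ioo (0 : ℝ) 1, 0 ≤ t ^ 2 * ph t ^ m ∧ t ^ 2 * ph t ^ m ≤ 1 := by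
    intro t ht
    obtain ⟨h1, _, h3, _⟩ := h14 t ht.1 ht.2
    have h4 : ph t ≤ 1 := h3.trans (Real.exp_le_one_iff.2 (by linarith [ht.2]))
    refine ⟨by positivity, ?_⟩
    calc t ^ 2 * ph t ^ m ≤ 1 * 1 :=
          mul_le_mul (pow_le_one₀ ht.1.le ht.2.le) (pow_le_one₀ h1.le h4) (by positivity)
            zero_le_one
      _ = 1 := one_mul 1
  have hint : Integrable (fun t : ℝ => t ^ 2 * ph t ^ m) (volume.restrict (Ioo (0 : ℝ) 1)) := by
    refine Measure.integrableOn_of_bounded (M := 1) (by simp) hm.aestronglyMeasurable ?_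
    refine (ae_restrict_iff' measurableSet_Ioo).2 (Filter.Eventually.of_forall fun t ht => ?_)
    rw [Real.norm_eq_abs, abs_of_nonneg (hb t ht).1]
    exact (hb t ht).2
  rw [← ofReal_integral_eq_lintegral_ofReal hint
    ((ae_restrict_iff' measurableSet_Ioo).2 (Filter.Eventually.of_forall fun t ht => (hb t ht).1))]
  congr 1
  rw [← integral_Ioc_eq_integral_Ioo, ← intervalIntegral.integral_of_le zero_le_one]
  rfl

theorem s11 (h10 : S10) (h14 : S14) : S11 := by
  intro m Y hY
  have := sph_finite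
  have hF : Continuous (ev (PY Y)) := ev_continuous _
  have hnn : ∀ x, 0 ≤ ev (PY Y) x := fun x => by
    rw [ev_PY]
    exact Finset.prod_nonneg fun k _ => sq_nonneg _
  simp only [← ev_PY]
  rw [polar_bal (fun x => ENNReal.ofReal (ev (PY Y) x))
    (ENNReal.measurable_ofReal.comp hF.measurable)]
  have hmeas : Measurable (Function.uncurry fun (w : R3) (t : ℝ) =>
      ENNReal.ofReal (t ^ 2) * ENNReal.ofReal (ev (PY Y) (t • w))) := by
    have h1 : Continuous fun z : R3 × ℝ => z.2 ^ 2 := by fun_prop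
    have h2 : Continuous fun z : R3 × ℝ => ev (PY Y) (z.2 • z.1) :=
      hF.comp (continuous_snd.smul continuous_fst)
    exact (ENNReal.measurable_ofReal.comp h1.measurable).mul
      (ENNReal.measurable_ofReal.comp h2.measurable)
  rw [lintegral_lintegral_swap hmeas.aemeasurable]
  have hle : ∀ t ∈ Ioo (0 : ℝ) 1,
      (∫⁻ w, ENNReal.ofReal (t ^ 2) * ENNReal.ofReal (ev (PY Y) (t • w)) ∂sph) ≤
      ENNReal.ofReal (t ^ 2 * ph t ^ m) * ∫⁻ w, ENNReal.ofReal (ev (PY Y) w) ∂sph := by
    intro t ht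
    have hph := (h14 t ht.1 ht.2).1
    have h2 : Continuous fun w : R3 => ev (PY Y) (t • w) := hF.comp (continuous_const_smul t)
    rw [lintegral_const_mul _ (f := fun w => ENNReal.ofReal (ev (PY Y) (t • w)))
      (ENNReal.measurable_ofReal.comp h2.measurable), ENNReal.ofReal_mul (sq_nonneg t), mul_assoc]
    refine mul_le_mul' le_rfl ?_
    have h3 := cont_int899 hF t
    have h4 : Integrable (fun w => ev (PY Y) w) sph := by
      simpa using cont_int899 hF 1
    rw [← ofReal_integral_eq_lintegral_ofReal h3 (Filter.Eventually.of_forall fun w => hnn _),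
      ← ofReal_integral_eq_lintegral_ofReal h4 (Filter.Eventually.of_forall fun w => hnn _),
      ← ENNReal.ofReal_mul (pow_nonneg hph.le m)]
    refine ENNReal.ofReal_le_ofReal ?_
    have h5 := h10 m Y t ht.1 ht.2 hY
    simpa only [← ev_PY] using h5
  refine (setLIntegral_mono' measurableSet_Ioo hle).trans ?_
  have hm : Measurable fun t : ℝ => t ^ 2 * ph t ^ m :=
    (measurable_id.pow_const 2).mul (s11_meas.pow_const m)
  rw [lintegral_mul_const _ (f := fun t : ℝ => ENNReal.ofReal (t ^ 2 * ph t ^ m))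
    (ENNReal.measurable_ofReal.comp hm), s11_int h14]

end H716Q
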