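import Pool.Agent.H716Q.Defs

set_option autoImplicit false

namespace H716Q

open MeasureTheory Set SqDist

theorem s12 (h11 : S11) : S12 := by
  intro m
  haveI : IsFiniteMeasure sph := sph_finite
  haveI : SigmaFinite bal := by
    unfold bal
    infer_instance
  have hbf : ∀ᵐ w ∂bal, ‖w‖ ≤ 1 := by
    unfold bal
    filter_upwards [ae_restrict_mem
      (Metric.isClosed_closedBall (x := (0 : R3)) (ε := 1)).measurableSet] with w hw
    simpa using hw
  have hsf : ∀ᵐ w ∂sph, ‖w‖ ≤ 1 := by
    filter_upwards [sph_ae] with w hw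
    exact hw.le
  set U : Set (Fin (m + 1) → R3) := {r | ∀ i, ‖r i‖ ≤ 1} with hU
  have hUm : MeasurableSet U := by
    have h : U = ⋂ i, {r : Fin (m + 1) → R3 | ‖r i‖ ≤ 1} := by
      ext r
      simp [U]
    rw [h]
    exact MeasurableSet.iInter fun i =>
      measurableSet_le (measurable_pi_apply i).norm measurable_const
  set f : (Fin (m + 1) → R3) → ENNReal := U.indicator (fun r => ENNReal.ofReal (Q r)) with hf
  have hfm : Measurable f := (Q_measurable (m + 1)).indicator hUm
  have hae : ∀ (μ : Measure R3) [SigmaFinite μ], (∀ᵐ w ∂μ, ‖w‖ ≤ 1) →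
      ∫⁻ r, ENNReal.ofReal (Q r) ∂(Measure.pi fun _ : Fin (m + 1) => μ) =
        ∫⁻ r, f r ∂(Measure.pi fun _ : Fin (m + 1) => μ) := by
    intro μ _ h
    have hall : ∀ᵐ r ∂(Measure.pi fun _ : Fin (m + 1) => μ), ∀ j, ‖r j‖ ≤ 1 := by
      rw [ae_all_iff]
      intro j
      exact (Measure.tendsto_eval_ae_ae (μ := fun _ : Fin (m + 1) => μ) (i := j)).eventually h
    refine lintegral_congr_ae ?_
    filter_upwards [hall] with r hr
    rw [hf, Set.indicator_of_mem (show r ∈ U from hr)]
  rw [hae bal hbf, hae sph hsf]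
  refine pi_compare bal sph (ENNReal.ofReal (JJ m)) (m + 1) f hfm ?_
  intro i x
  by_cases hx : ∀ j, j ≠ i → ‖x j‖ ≤ 1
  · have h1 : ∀ t, f (Function.update x i t) ≤ ENNReal.ofReal (Q (Function.update x i t)) :=
      fun t => Set.indicator_le_self U _ _
    have h2 : ∫⁻ t, f (Function.update x i t) ∂sph =
        ∫⁻ t, ENNReal.ofReal (Q (Function.update x i t)) ∂sph := by
      refine lintegral_congr_ae ?_
      filter_upwards [hsf] with t ht
      rw [hf, Set.indicator_of_mem]
      intro j
      by_cases hj : j = i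
      · subst hj
        rwa [Function.update_self]
      · rw [Function.update_of_ne hj]
        exact hx j hj
    rw [h2]
    refine (lintegral_mono h1).trans ?_
    obtain ⟨C, hC, hQ⟩ := upper_aux i x
    simp_rw [hQ, ENNReal.ofReal_mul hC]
    rw [lintegral_const_mul' _ _ ENNReal.ofReal_ne_top,
      lintegral_const_mul' _ _ ENNReal.ofReal_ne_top, mul_left_comm]
    gcongr
    exact h11 m (fun k => x (i.succAbove k)) (fun k => hx _ (Fin.succAbove_ne i k))
  · push Not at hx
    obtain ⟨j, hj, hxj⟩ := hx
    have h0 : ∀ t, f (Function.update x i t) = 0 := by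
      intro t
      rw [hf, Set.indicator_of_notMem]
      intro h
      have h3 := h j
      rw [Function.update_of_ne hj] at h3
      linarith
    simp [h0]

end H716Q
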