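import Pool.Agent.H716Q.Defs

set_option autoImplicit false

namespace H716Q

open MeasureTheory Set SqDist

theorem S13_JJ_nonneg (m : ℕ) : 0 ≤ JJ m := by
  unfold JJ
  refine intervalIntegral.integral_nonneg (by norm_num) ?_
  intro t ht
  have h0 : 0 ≤ ph t := by
    unfold ph
    exact mul_nonneg ht.1 (Real.exp_pos _).le
  positivity

theorem s13 (h12 : S12) (_h14 : S14) : S13 := by
  intro m
  obtain ⟨hfb, hfs⟩ := lint_finite (m + 1)
  rw [F3_eq, F2_eq]
  have h1 := h12 m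
  have hpow : ENNReal.ofReal (JJ m) ^ (m + 1) ≠ ⊤ := ENNReal.pow_ne_top ENNReal.ofReal_ne_top
  have h2 := ENNReal.toReal_mono (ENNReal.mul_ne_top hpow hfs) h1
  rw [ENNReal.toReal_mul, ENNReal.toReal_pow, ENNReal.toReal_ofReal (S13_JJ_nonneg m)] at h2
  exact h2

end H716Q
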