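import Pool.Agent.H716Q.Defs

set_option autoImplicit false

/-! S14: bounds for `ph` (helper334). -/

namespace H716Q

open MeasureTheory Set SqDist

theorem S14_log (x : ℝ) (h0 : 0 ≤ x) (h1 : x < 1) : Real.log (1 - x) ≤ -x - x ^ 2 / 2 := by
  have h := Real.hasSum_pow_div_log_of_abs_lt_one (x := x) (by rw [abs_of_nonneg h0]; exact h1)
  have h2 := sum_le_hasSum (Finset.range 2) (fun i _ => by positivity) h
  rw [Finset.sum_range_succ, Finset.sum_range_one] at h2
  norm_num at h2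
  linarith

theorem S14_exp (x : ℝ) (h0 : 0 ≤ x) : Real.exp (-x) ≤ 1 - x + x ^ 2 / 2 := by
  have h1 := Real.quadratic_le_exp_of_nonneg h0
  have h2 : 0 ≤ 1 - x + x ^ 2 / 2 := by nlinarith [sq_nonneg (x - 1)]
  have h3 : (1 : ℝ) ≤ (1 - x + x ^ 2 / 2) * Real.exp x := by
    calc (1 : ℝ) ≤ (1 - x + x ^ 2 / 2) * (1 + x + x ^ 2 / 2) := by nlinarith [sq_nonneg (x ^ 2)]
      _ ≤ _ := mul_le_mul_of_nonneg_left h1 h2
  rw [Real.exp_neg, inv_eq_one_div, div_le_iff₀ (Real.exp_pos x)]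
  exact h3

/-- the bounds in terms of `u = 1 - t` -/
theorem S14_core (t E : ℝ) (h0 : 0 < t) (h1 : t < 1) 
    (hE : E ≤ (1 - t) ^ 2 * (1 + 1 / 2 * Real.log (1 / (1 - t)))) :
    ((1 + t) / 2) ^ 2 * Real.exp E ≤ Real.exp (-(1 - t) / 4) ∧
    ((1 + t) / 2) ^ 2 * Real.exp E - t ≤
      (1 - t) ^ 2 * (3 / 2 + 1 / 2 * Real.log (1 / (1 - t))) := by
  set u := 1 - t with hu
  have hu0 : 0 < u := by linarith
  have hu1 : u < 1 := by linarith
  set E1 := u ^ 2 * (1 + 1 / 2 * Real.log (1 / u)) with hE1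
  have hl0 : 0 ≤ Real.log (1 / u) := Real.log_nonneg (by rw [le_div_iff₀ hu0]; linarith)
  have hl : Real.log (1 / u) ≤ 1 / u - 1 := Real.log_le_sub_one_of_pos (by positivity)
  have hE0 : 0 ≤ E1 := by positivity
  have hE2 : E1 ≤ (u + u ^ 2) / 2 := by
    have : u ^ 2 * (1 + 1 / 2 * Real.log (1 / u)) ≤ u ^ 2 * (1 + 1 / 2 * (1 / u - 1)) := by
      apply mul_le_mul_of_nonneg_left _ (by positivity)
      linarith
    have e : u ^ 2 * (1 + 1 / 2 * (1 / u - 1)) = (u + u ^ 2) / 2 := by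
      field_simp
      ring
    linarith
  have hq : ((1 + t) / 2) ^ 2 = Real.exp (2 * Real.log (1 - u / 2)) := by
    rw [two_mul, Real.exp_add, Real.exp_log (by linarith), hu]
    ring
  have hlog := S14_log (u / 2) (by positivity) (by linarith)
  have hph : ((1 + t) / 2) ^ 2 * Real.exp E ≤ Real.exp (-(u + u ^ 2 / 4 - E1)) := by
    rw [hq, ← Real.exp_add]
    apply Real.exp_le_exp.2
    nlinarith
  refine ⟨hph.trans (Real.exp_le_exp.2 ?_), ?_⟩
  · nlinarith
  · have h5 : Real.exp (-(u + u ^ 2 / 4 - E1)) ≤ Real.exp (-(u - E1)) := by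
      apply Real.exp_le_exp.2
      nlinarith [sq_nonneg u]
    have h6 : 0 ≤ u - E1 := by nlinarith
    have h7 := S14_exp (u - E1) h6
    have h8 : (u - E1) ^ 2 ≤ u ^ 2 := by
      apply pow_le_pow_left₀ h6
      linarith
    have h9 : t = 1 - u := by rw [hu]; ring
    have h10 : u ^ 2 * (3 / 2 + 1 / 2 * Real.log (1 / u)) = E1 + u ^ 2 / 2 := by
      rw [hE1]; ring
    rw [h10]
    linarith

theorem s14 (h20 : S20) : S14 := by
  intro t h0 h1
  have hu0 : 0 < 1 - t := by linarith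
  have hup : 0 < 1 + t := by linarith
  set E := (1 - t) ^ 2 / (2 * t) * Real.log ((1 + t) / (1 - t)) with hE
  have hph : ph t = ((1 + t) / 2) ^ 2 * Real.exp E := by
    unfold ph cc dl
    have e1 : 1 + (1 - t) ^ 2 / t / 4 = (1 + t) ^ 2 / (4 * t) := by field_simp; ring
    have e2 : 1 + 4 / ((1 - t) ^ 2 / t) = ((1 + t) / (1 - t)) ^ 2 := by field_simp; ring
    have e3 : (1 - t) ^ 2 / t / 4 * (((2 : ℕ) : ℝ) * Real.log ((1 + t) / (1 - t))) = E := by
      rw [hE]
      push_cast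
      field_simp
      ring
    rw [e1, e2, Real.log_pow, e3, Real.exp_add, Real.exp_log (by positivity)]
    field_simp
    ring
  have hE' : E ≤ (1 - t) ^ 2 * (1 + 1 / 2 * Real.log (1 / (1 - t))) := by
    have h := mul_le_mul_of_nonneg_left (h20 t h0 h1)
      (by positivity : (0 : ℝ) ≤ (1 - t) ^ 2 / (2 * t))
    refine h.trans (le_of_eq ?_)
    field_simp
  obtain ⟨c1, c2⟩ := S14_core t E h0 h1 hE'
  refine ⟨?_, ?_, ?_, ?_⟩
  · unfold ph
    positivity
  · have hd : 0 < dl t := by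
      unfold dl
      positivity
    have hcc : 0 ≤ cc (dl t) := by
      unfold cc
      have h2 : 0 ≤ Real.log (1 + dl t / 4) := Real.log_nonneg (by linarith)
      have h3 : 0 ≤ Real.log (1 + 4 / dl t) := by
        apply Real.log_nonneg
        have : 0 < 4 / dl t := by positivity
        linarith
      positivity
    unfold ph
    have := Real.one_le_exp hcc
    nlinarith
  · rw [hph]
    exact c1
  · rw [hph]
    refine c2.trans ?_
    have hl0 : 0 ≤ Real.log (1 / (1 - t)) :=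
      Real.log_nonneg (by rw [le_div_iff₀ hu0]; linarith)
    have h5 : 0 ≤ (1 - t) ^ 2 := by positivity
    nlinarith [mul_nonneg h5 hl0]

end H716Q
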