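import Pool.Agent.H716Q.Defs

set_option autoImplicit false

namespace H716Q

open MeasureTheory Set SqDist

theorem s15_pow {a b : ℝ} (ha : 0 ≤ a) (hab : a ≤ b) (k : ℕ) :
    b ^ (k + 1) - a ^ (k + 1) ≤ ((k : ℝ) + 1) * b ^ k * (b - a) := by
  induction k with
  | zero => simp
  | succ k ih =>
    have hb : 0 ≤ b := ha.trans hab
    have h1 : b * (b ^ (k + 1) - a ^ (k + 1)) ≤ b * (((k : ℝ) + 1) * b ^ k * (b - a)) :=
      mul_le_mul_of_nonneg_left ih hb
    have h2 : a ^ (k + 1) * (b - a) ≤ b ^ (k + 1) * (b - a) :=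
      mul_le_mul_of_nonneg_right (pow_le_pow_left₀ ha hab _) (by linarith)
    push_cast
    have e1 : b ^ (k + 1 + 1) - a ^ (k + 1 + 1) =
        b * (b ^ (k + 1) - a ^ (k + 1)) + a ^ (k + 1) * (b - a) := by ring
    have e2 : ((k : ℝ) + 1 + 1) * b ^ (k + 1) * (b - a) =
        b * (((k : ℝ) + 1) * b ^ k * (b - a)) + b ^ (k + 1) * (b - a) := by ring
    rw [e1, e2]
    linarith

/-- the pointwise bound -/
theorem s15_point (h14 : S14) (k : ℕ) {t : ℝ} (ht0 : 0 < t) (ht1 : t < 1) :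
    t ^ 2 * ph t ^ (k + 1) ≤ t ^ (k + 3) + 4 * ((k : ℝ) + 2) *
      (Real.exp (-((k : ℝ) + 2) * (1 - t) / 4) *
        ((1 - t) ^ 2 * Real.log ((k : ℝ) + 2) + (1 - t) / ((k : ℝ) + 2))) := by
  obtain ⟨hp0, hp1, hp2, hp3⟩ := h14 t ht0 ht1
  set u : ℝ := 1 - t with hu
  have hu0 : 0 < u := by rw [hu]; linarith
  have hu1 : u < 1 := by rw [hu]; linarith
  set N : ℝ := (k : ℝ) + 2 with hN
  have hN2 : 2 ≤ N := by
    have : (0 : ℝ) ≤ k := Nat.cast_nonneg k
    rw [hN]; linarith
  have hN0 : 0 < N := by linarith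
  -- the difference of the powers
  have h1 := s15_pow ht0.le hp1 k
  -- logarithm
  have h2 : 1 + Real.log (1 / u) ≤ Real.log N + 1 / (N * u) := by
    have h3 : Real.log (1 / (N * u)) ≤ 1 / (N * u) - 1 :=
      Real.log_le_sub_one_of_pos (by positivity)
    have h4 : Real.log (1 / (N * u)) = Real.log (1 / u) - Real.log N := by
      rw [one_div, one_div, Real.log_inv, Real.log_inv, Real.log_mul hN0.ne' hu0.ne']
      ring
    linarith
  have h3 : ph t - t ≤ 2 * (u ^ 2 * Real.log N + u / N) := by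
    have h4 : 2 * u ^ 2 * (1 + Real.log (1 / u)) ≤ 2 * u ^ 2 * (Real.log N + 1 / (N * u)) :=
      mul_le_mul_of_nonneg_left h2 (by positivity)
    have h5 : 2 * u ^ 2 * (Real.log N + 1 / (N * u)) = 2 * (u ^ 2 * Real.log N + u / N) := by
      field_simp
    linarith
  have hg0 : 0 ≤ u ^ 2 * Real.log N + u / N := by
    have : 0 ≤ Real.log N := Real.log_nonneg (by linarith)
    positivity
  -- exponential
  have h4 : ph t ^ k ≤ 2 * Real.exp (-N * u / 4) := by
    have h5 : ph t ^ k ≤ Real.exp (-u / 4) ^ k := pow_le_pow_left₀ hp0.le hp2 k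
    have h6 : Real.exp (-u / 4) ^ k = Real.exp (-N * u / 4) * Real.exp (u / 2) := by
      rw [← Real.exp_nat_mul, ← Real.exp_add]
      congr 1
      rw [hN]; ring
    have h7 : Real.exp (u / 2) ≤ 2 := by
      have h8 : Real.exp (u / 2) ≤ Real.exp (1 / 2) := Real.exp_le_exp.2 (by linarith)
      have h9 : Real.exp (1 / 2) ^ 2 = Real.exp 1 := by
        rw [← Real.exp_nat_mul]; norm_num
      have h10 := Real.exp_one_lt_d9
      have h11 : Real.exp (1 / 2) ≤ 2 := by
        by_contra hc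
        push Not at hc
        have := Real.exp_pos (1 / 2)
        nlinarith
      linarith
    rw [h6] at h5
    have h12 : Real.exp (-N * u / 4) * Real.exp (u / 2) ≤ Real.exp (-N * u / 4) * 2 :=
      mul_le_mul_of_nonneg_left h7 (Real.exp_pos _).le
    linarith
  have hE := Real.exp_pos (-N * u / 4)
  set E := Real.exp (-N * u / 4) with hEdef
  set g := u ^ 2 * Real.log N + u / N with hgdef
  have h5 : ((k : ℝ) + 1) * ph t ^ k * (ph t - t) ≤ N * (2 * E) * (2 * g) := by
    have a1 : ((k : ℝ) + 1) * ph t ^ k ≤ N * (2 * E) := by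
      apply mul_le_mul _ h4 (by positivity) hN0.le
      rw [hN]; linarith
    exact mul_le_mul a1 h3 (by linarith) (by positivity)
  have h6 : ph t ^ (k + 1) - t ^ (k + 1) ≤ 4 * N * (E * g) := by
    have : N * (2 * E) * (2 * g) = 4 * N * (E * g) := by ring
    linarith
  have ht2 : t ^ 2 ≤ 1 := by nlinarith
  have hd0 : 0 ≤ ph t ^ (k + 1) - t ^ (k + 1) := by
    have := pow_le_pow_left₀ ht0.le hp1 (k + 1)
    linarith
  have h7 : t ^ 2 * (ph t ^ (k + 1) - t ^ (k + 1)) ≤ 1 * (ph t ^ (k + 1) - t ^ (k + 1)) :=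
    mul_le_mul_of_nonneg_right ht2 hd0
  have h8 : t ^ 2 * ph t ^ (k + 1) = t ^ (k + 3) + t ^ 2 * (ph t ^ (k + 1) - t ^ (k + 1)) := by
    ring
  rw [h8]
  linarith

theorem s15 (h14 : S14) (h19 : S19) : S15 := by
  intro n hn
  have hn2 : (2 : ℝ) ≤ n := by exact_mod_cast hn
  have hn0 : (0 : ℝ) < n := by linarith
  have hlog : 0.69 ≤ Real.log n := by
    have h1 := Real.log_two_gt_d9
    have h2 : Real.log 2 ≤ Real.log n := Real.log_le_log (by norm_num) hn2
    linarith
  obtain ⟨k, rfl⟩ : ∃ k, n = k + 2 := ⟨n - 2, by omega⟩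
  have ek : k + 2 - 1 = k + 1 := by omega
  rw [ek]
  by_cases hint : IntervalIntegrable (fun t : ℝ => t ^ 2 * ph t ^ (k + 1)) volume 0 1
  · have h19' := h19 (k + 2) hn
    push_cast at h19' hn2 hn0 hlog ⊢
    set N : ℝ := (k : ℝ) + 2 with hN
    have hc1 : Continuous fun t : ℝ => t ^ (k + 3) := by fun_prop
    have hc2 : Continuous fun t : ℝ => 4 * N * (Real.exp (-N * (1 - t) / 4) *
        ((1 - t) ^ 2 * Real.log N + (1 - t) / N)) := by fun_prop
    have hI : JJ (k + 1) ≤ ∫ t in (0 : ℝ)..1, (t ^ (k + 3) + 4 * N *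
        (Real.exp (-N * (1 - t) / 4) * ((1 - t) ^ 2 * Real.log N + (1 - t) / N))) := by
      unfold JJ
      apply intervalIntegral.integral_mono_on_of_le_Ioo zero_le_one hint
        ((hc1.add hc2).intervalIntegrable _ _)
      intro t ht
      exact s15_point h14 k ht.1 ht.2
    rw [intervalIntegral.integral_add (hc1.intervalIntegrable _ _)
      (hc2.intervalIntegrable _ _), integral_pow, intervalIntegral.integral_const_mul,
      intervalIntegral.integral_comp_sub_left (fun u : ℝ => Real.exp (-N * u / 4) *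
        (u ^ 2 * Real.log N + u / N)) 1] at hI
    simp only [sub_self, sub_zero] at hI
    have e1 : ((1 : ℝ) ^ (k + 3 + 1) - 0 ^ (k + 3 + 1)) / (((k + 3 : ℕ) : ℝ) + 1) =
        1 / (N + 2) := by
      rw [one_pow, zero_pow (by omega), sub_zero]
      push_cast
      rw [hN]
      congr 1
      ring
    rw [e1] at hI
    have h3 : 4 * N * (∫ u in (0 : ℝ)..1, Real.exp (-N * u / 4) *
        (u ^ 2 * Real.log N + u / N)) ≤
        4 * N * (128 * Real.log N / N ^ 3 + 16 / N ^ 3) :=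
      mul_le_mul_of_nonneg_left h19' (by positivity)
    have h4 : 4 * N * (128 * Real.log N / N ^ 3 + 16 / N ^ 3) =
        (512 * Real.log N + 64) / N ^ 2 := by
      field_simp
      ring
    have h5 : (512 * Real.log N + 64) / N ^ 2 ≤ 1 / (N + 2) * (1300 * Real.log N / N) := by
      rw [one_div, inv_mul_eq_div, div_div, div_le_div_iff₀ (by positivity) (by positivity)]
      nlinarith [mul_pos hn0 hn0, mul_nonneg hn0.le (by linarith : (0 : ℝ) ≤ Real.log N - 0.69),
        mul_nonneg (mul_nonneg hn0.le hn0.le) (by linarith : (0 : ℝ) ≤ Real.log N - 0.69)]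
    have h6 : 1 / (N + 2) * (1 + 1300 * Real.log N / N) =
        1 / (N + 2) + 1 / (N + 2) * (1300 * Real.log N / N) := by ring
    rw [h6]
    linarith
  · unfold JJ
    rw [intervalIntegral.integral_undef hint]
    have : 0 ≤ Real.log ((k + 2 : ℕ) : ℝ) := by linarith
    positivity

end H716Q
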