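import Pool.Agent.H716Q.Defs

set_option autoImplicit false

namespace H716Q

open MeasureTheory Set SqDist

theorem s16_nonneg (m : ℕ) : 0 ≤ JJ m := by
  unfold JJ
  apply intervalIntegral.integral_nonneg (by norm_num)
  intro t ht
  have h : 0 ≤ ph t := mul_nonneg ht.1 (Real.exp_pos _).le
  positivity

theorem s16 (_h14 : S14) (h15 : S15) : S16 := by
  intro n hn
  refine ⟨s16_nonneg _, ?_⟩
  have hn0 : (0 : ℝ) < n := by exact_mod_cast (by omega : 0 < n)
  have hlog : 0 ≤ Real.log n := Real.log_natCast_nonneg n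
  have hx0 : 0 ≤ 1300 * Real.log n / n := by positivity
  have h1 : (1 + 1300 * Real.log n / n) ^ n ≤ (n : ℝ) ^ 1300 := by
    have h2 : 1 + 1300 * Real.log n / n ≤ Real.exp (1300 * Real.log n / n) := by
      have := Real.add_one_le_exp (1300 * Real.log n / n)
      linarith
    have h3 : (n : ℝ) * (1300 * Real.log n / n) = ((1300 : ℕ) : ℝ) * Real.log n := by
      push_cast
      field_simp
    calc (1 + 1300 * Real.log n / n) ^ n ≤ (Real.exp (1300 * Real.log n / n)) ^ n :=
          pow_le_pow_left₀ (by linarith) h2 n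
      _ = Real.exp (n * (1300 * Real.log n / n)) := (Real.exp_nat_mul _ n).symm
      _ = Real.exp (((1300 : ℕ) : ℝ) * Real.log n) := by rw [h3]
      _ = (Real.exp (Real.log n)) ^ 1300 := Real.exp_nat_mul _ _
      _ = (n : ℝ) ^ 1300 := by rw [Real.exp_log hn0]
  calc JJ (n - 1) ^ n ≤ (1 / ((n : ℝ) + 2) * (1 + 1300 * Real.log n / n)) ^ n :=
        pow_le_pow_left₀ (s16_nonneg _) (h15 n hn) n
    _ = (1 + 1300 * Real.log n / n) ^ n * (((n : ℝ) + 2) ^ n)⁻¹ := by
        rw [mul_pow, one_div, inv_pow, mul_comm]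
    _ ≤ _ := mul_le_mul_of_nonneg_right h1 (by positivity)

end H716Q
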