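import Pool.Agent.H716Q.Defs

set_option autoImplicit false

namespace H716Q

open MeasureTheory Set SqDist Filter Topology

/-- upper bound in Stirling's formula -/
theorem s17_upper (n : ℕ) (hn : 1 ≤ n) :
    Real.log (Stirling.stirlingSeq n) ≤ 1 / 2 * Real.log Real.pi + 1 / (2 * (n : ℝ)) := by
  have hstep : ∀ m : ℕ, 1 ≤ m → Real.log (Stirling.stirlingSeq m) - 1 / (2 * (m : ℝ)) ≤
      Real.log (Stirling.stirlingSeq (m + 1)) - 1 / (2 * ((m + 1 : ℕ) : ℝ)) := by
    intro m hm
    obtain ⟨j, rfl⟩ := Nat.exists_eq_add_of_le' hm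
    have h1 := Stirling.log_stirlingSeq_sub_log_stirlingSeq_succ (j + 1)
    have h2 : (1 : ℝ) / (4 * ((j + 1 : ℕ) : ℝ) ^ 2) ≤
        1 / (2 * ((j + 1 : ℕ) : ℝ)) - 1 / (2 * ((j + 1 + 1 : ℕ) : ℝ)) := by
      push_cast
      have hj : (0 : ℝ) ≤ j := Nat.cast_nonneg j
      rw [div_sub_div _ _ (by positivity) (by positivity), div_le_div_iff₀ (by positivity)
        (by positivity)]
      nlinarith [mul_nonneg hj hj, mul_nonneg (mul_nonneg hj hj) hj]
    have h3 : Real.log (Stirling.stirlingSeq (j + 1)) -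
        Real.log (Stirling.stirlingSeq (j + 1 + 1)) ≤ 1 / (4 * ((j + 1 : ℕ) : ℝ) ^ 2) := h1
    linarith
  have hmono : ∀ k : ℕ, Real.log (Stirling.stirlingSeq n) - 1 / (2 * (n : ℝ)) ≤
      Real.log (Stirling.stirlingSeq (n + k)) - 1 / (2 * ((n + k : ℕ) : ℝ)) := by
    intro k
    induction k with
    | zero => simp
    | succ k ih => exact ih.trans (hstep (n + k) (by omega))
  have hpi : (0 : ℝ) < Real.sqrt Real.pi := Real.sqrt_pos.2 Real.pi_pos
  have hlim : Tendsto (fun k : ℕ => Real.log (Stirling.stirlingSeq (n + k)) -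
      1 / (2 * ((n + k : ℕ) : ℝ))) atTop (𝓝 (Real.log (Real.sqrt Real.pi) - 0)) := by
    have h0 : Tendsto (fun k : ℕ => n + k) atTop atTop :=
      tendsto_atTop_mono (fun k => Nat.le_add_left k n) tendsto_id
    refine Tendsto.sub ?_ ?_
    · exact (Stirling.tendsto_stirlingSeq_sqrt_pi.log hpi.ne').comp h0
    · have h1 : Tendsto (fun m : ℕ => 1 / (2 * (m : ℝ))) atTop (𝓝 0) := by
        have h2 := (tendsto_const_div_atTop_nhds_zero_nat (1 / 2 : ℝ))
        refine h2.congr fun m => ?_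
        rw [div_div]
      exact h1.comp h0
  have h4 := ge_of_tendsto' hlim hmono
  rw [sub_zero, Real.log_sqrt Real.pi_pos.le] at h4
  linarith

theorem s17_lower (n : ℕ) (hn : 1 ≤ n) :
    1 / 2 * Real.log Real.pi ≤ Real.log (Stirling.stirlingSeq n) := by
  have hpi : (0 : ℝ) < Real.sqrt Real.pi := Real.sqrt_pos.2 Real.pi_pos
  have h1 := Real.log_le_log hpi (Stirling.sqrt_pi_le_stirlingSeq (n := n) (by omega))
  rw [Real.log_sqrt Real.pi_pos.le] at h1
  linarith

/-- the logarithm of the closed form -/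
noncomputable def s17A (n : ℕ) : ℝ := (n : ℝ) * (n + 1) * Real.log 2 + n * Real.log Real.pi +
  2 * ∑ k ∈ Finset.range n, Real.log (k.factorial : ℝ) - ((n : ℝ) - 1) * Real.log (n.factorial : ℝ)

/-- the main term -/
noncomputable def s17M (n : ℕ) : ℝ := (Real.log 2 - 1 / 2) * (n : ℝ) ^ 2 + 1 / 2 * n * Real.log n +
  (3 / 2 * Real.log (2 * Real.pi) - 1) * n

theorem s17_A (n : ℕ) (hn : 1 ≤ n) :
    Real.log (2 ^ (n * (n + 1)) * Real.pi ^ n * (∏ k ∈ Finset.range n, (k.factorial : ℝ) ^ 2)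
        / (n.factorial : ℝ) ^ (n - 1)) = s17A n := by
  have hpi := Real.pi_pos
  have hfac : ∀ k : ℕ, (0 : ℝ) < (k.factorial : ℝ) := fun k => by
    exact_mod_cast k.factorial_pos
  have hprod : (0 : ℝ) < ∏ k ∈ Finset.range n, (k.factorial : ℝ) ^ 2 :=
    Finset.prod_pos fun k _ => pow_pos (hfac k) 2
  rw [Real.log_div (by positivity) (pow_pos (hfac n) _).ne', Real.log_mul (by positivity)
    hprod.ne', Real.log_mul (by positivity) (by positivity), Real.log_pow, Real.log_pow,
    Real.log_pow, Real.log_prod (fun k _ => (pow_pos (hfac k) 2).ne'), Nat.cast_sub hn]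
  unfold s17A
  rw [Finset.mul_sum]
  have h1 : ∑ k ∈ Finset.range n, Real.log ((k.factorial : ℝ) ^ 2) =
      ∑ k ∈ Finset.range n, 2 * Real.log (k.factorial : ℝ) := by
    refine Finset.sum_congr rfl fun k _ => ?_
    rw [Real.log_pow]
    norm_num
  rw [h1]
  push_cast
  ring

theorem s17_step (n : ℕ) (hn : 1 ≤ n) :
    |(s17A (n + 1) - s17M (n + 1)) - (s17A n - s17M n)| ≤ 2 / (n : ℝ) := by
  have hn' : (1 : ℝ) ≤ n := by exact_mod_cast hn
  have hn0 : (0 : ℝ) < n := by linarith
  have hpi := Real.pi_pos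
  have hfacpos : (0 : ℝ) < (n.factorial : ℝ) := by exact_mod_cast n.factorial_pos
  set l := Real.log (n : ℝ) with hl
  set l1 := Real.log ((n : ℝ) + 1) with hl1
  set F := Real.log (n.factorial : ℝ) with hF
  have hA : s17A (n + 1) - s17A n = (2 * (n : ℝ) + 2) * Real.log 2 + Real.log Real.pi + F -
      n * l1 := by
    unfold s17A
    rw [Finset.sum_range_succ, Nat.factorial_succ]
    push_cast
    rw [Real.log_mul (by positivity) hfacpos.ne']
    ring
  have hM : s17M (n + 1) - s17M n = (Real.log 2 - 1 / 2) * (2 * n + 1) +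
      1 / 2 * (((n : ℝ) + 1) * l1 - n * l) + (3 / 2 * Real.log (2 * Real.pi) - 1) := by
    unfold s17M
    push_cast
    ring
  have hSt := Stirling.log_stirlingSeq_formula n
  have hup := s17_upper n hn
  have hlo := s17_lower n hn
  have e1 : Real.log (2 * (n : ℝ)) = Real.log 2 + l := by
    rw [Real.log_mul (by norm_num) hn0.ne']
  have e2 : Real.log ((n : ℝ) / Real.exp 1) = l - 1 := by
    rw [Real.log_div hn0.ne' (Real.exp_pos 1).ne', Real.log_exp]
  have e3 : Real.log (2 * Real.pi) = Real.log 2 + Real.log Real.pi := by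
    rw [Real.log_mul (by norm_num) hpi.ne']
  rw [e1, e2] at hSt
  -- bounds for log (1 + 1/n)
  have hd : l1 - l = Real.log (((n : ℝ) + 1) / n) := by
    rw [Real.log_div (by positivity) hn0.ne']
  have hub : l1 - l ≤ 1 / n := by
    rw [hd]
    have h1 := Real.log_le_sub_one_of_pos (show (0 : ℝ) < ((n : ℝ) + 1) / n by positivity)
    have h2 : ((n : ℝ) + 1) / n - 1 = 1 / n := by
      field_simp
      ring
    linarith
  have hlb : 1 / ((n : ℝ) + 1) ≤ l1 - l := by
    rw [hd]
    have h1 := Real.log_le_sub_one_of_pos (show (0 : ℝ) < (n : ℝ) / ((n : ℝ) + 1) by positivity)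
    have h2 : (n : ℝ) / ((n : ℝ) + 1) - 1 = -(1 / ((n : ℝ) + 1)) := by
      field_simp
      ring
    have h3 : Real.log ((n : ℝ) / ((n : ℝ) + 1)) = -Real.log (((n : ℝ) + 1) / n) := by
      rw [← Real.log_inv, inv_div]
    linarith
  have h4 : (n : ℝ) * (l1 - l) ≤ 1 := by
    have := mul_le_mul_of_nonneg_left hub hn0.le
    rwa [mul_one_div_cancel hn0.ne'] at this
  have h5 : 1 ≤ ((n : ℝ) + 1) * (l1 - l) := by
    have := mul_le_mul_of_nonneg_left hlb (show (0 : ℝ) ≤ (n : ℝ) + 1 by positivity)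
    rwa [mul_one_div_cancel (by positivity)] at this
  have h6 : (2 : ℝ) / n = 2 * (1 / n) := by ring
  have h7 : 1 / (2 * (n : ℝ)) = 1 / 2 * (1 / n) := by
    field_simp
  have h8 : (s17A (n + 1) - s17M (n + 1)) - (s17A n - s17M n) =
      (s17A (n + 1) - s17A n) - (s17M (n + 1) - s17M n) := by ring
  rw [h8, hA, hM, e3, h6, abs_le]
  rw [h7] at hup
  set u := 1 / (n : ℝ) with hu
  set S := Real.log (Stirling.stirlingSeq n) with hS
  constructor <;> nlinarith

theorem s17 : S17 := by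
  have hsum : ∀ n : ℕ, 1 ≤ n → |s17A n - s17M n| ≤ |s17A 1 - s17M 1| + 2 * (1 + Real.log n) := by
    intro n hn
    have h1 : ∀ m : ℕ, |s17A (m + 1) - s17M (m + 1)| ≤ |s17A 1 - s17M 1| +
        2 * ∑ k ∈ Finset.range m, 1 / ((k : ℝ) + 1) := by
      intro m
      induction m with
      | zero => simp
      | succ m ih =>
        have h2 := s17_step (m + 1) (by omega)
        have h3 := abs_sub_abs_le_abs_sub (s17A (m + 1 + 1) - s17M (m + 1 + 1))
          (s17A (m + 1) - s17M (m + 1))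
        rw [Finset.sum_range_succ]
        have h4 : (2 : ℝ) / ((m + 1 : ℕ) : ℝ) = 2 * (1 / ((m : ℝ) + 1)) := by
          push_cast
          ring
        rw [h4] at h2
        linarith
    obtain ⟨m, rfl⟩ := Nat.exists_eq_add_of_le' hn
    refine (h1 m).trans ?_
    have h5 : ∑ k ∈ Finset.range m, 1 / ((k : ℝ) + 1) ≤ 1 + Real.log ((m + 1 : ℕ) : ℝ) := by
      have h6 := harmonic_le_one_add_log (m + 1)
      have h7 : ((harmonic (m + 1) : ℚ) : ℝ) = ∑ k ∈ Finset.range (m + 1), 1 / ((k : ℝ) + 1) := by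
        unfold harmonic
        push_cast
        refine Finset.sum_congr rfl fun k _ => ?_
        rw [one_div]
      rw [h7, Finset.sum_range_succ] at h6
      have h8 : (0 : ℝ) ≤ 1 / ((m : ℝ) + 1) := by positivity
      linarith
    linarith
  set E := |s17A 1 - s17M 1| with hE
  have hE0 : 0 ≤ E := abs_nonneg _
  have hl2 : 0 < Real.log 2 := Real.log_pos (by norm_num)
  refine ⟨(E + 2) / Real.log 2 + 2, fun n hn => ?_⟩
  have hln : Real.log 2 ≤ Real.log n := Real.log_le_log (by norm_num) (by exact_mod_cast hn)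
  rw [s17_A n (by omega)]
  refine (hsum n (by omega)).trans ?_
  have h1 : E + 2 ≤ (E + 2) / Real.log 2 * Real.log n := by
    rw [div_mul_eq_mul_div, le_div_iff₀ hl2]
    exact mul_le_mul_of_nonneg_left hln (by linarith)
  nlinarith

end H716Q
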