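import Pool.Agent.H716Q.Defs

set_option autoImplicit false

/-! Task S19: the one-dimensional integral. -/

namespace H716Q

open MeasureTheory Set SqDist

theorem s19_aux (a c d : ℝ) (ha : 0 < a) (hc : 0 ≤ c) (hd : 0 ≤ d) :
    ∫ u in (0 : ℝ)..1, Real.exp (-(a * u)) * (u ^ 2 * c + u * d) ≤
      2 / a ^ 3 * c + 1 / a ^ 2 * d := by
  have hder : ∀ u ∈ uIcc (0 : ℝ) 1, HasDerivAt
      (fun u : ℝ => Real.exp (-(a * u)) *
        (-((u ^ 2 / a + 2 * u / a ^ 2 + 2 / a ^ 3) * c + (u / a + 1 / a ^ 2) * d)))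
      (Real.exp (-(a * u)) * (u ^ 2 * c + u * d)) u := by
    intro u _
    have h1 : HasDerivAt (fun u : ℝ => -(a * u)) (-(a * 1)) u :=
      ((hasDerivAt_id u).const_mul a).neg
    have h2 := h1.exp
    have h3 : HasDerivAt (fun u : ℝ => u ^ 2 / a + 2 * u / a ^ 2 + 2 / a ^ 3)
        (2 * u / a + 2 / a ^ 2) u := by
      have e1 : HasDerivAt (fun u : ℝ => u ^ 2 / a) (2 * u / a) u := by
        have := (hasDerivAt_pow 2 u).div_const a
        simpa using this
      have e2 : HasDerivAt (fun u : ℝ => 2 * u / a ^ 2) (2 / a ^ 2) u := by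
        have := ((hasDerivAt_id u).const_mul 2).div_const (a ^ 2)
        simpa using this
      exact (e1.add e2).add_const _
    have h4 : HasDerivAt (fun u : ℝ => u / a + 1 / a ^ 2) (1 / a) u := by
      have := ((hasDerivAt_id u).div_const a).add_const (1 / a ^ 2)
      simpa using this
    have h5 : HasDerivAt (fun u : ℝ => Real.exp (-(a * u)) *
        (-((u ^ 2 / a + 2 * u / a ^ 2 + 2 / a ^ 3) * c + (u / a + 1 / a ^ 2) * d)))
        (Real.exp (-(a * u)) * -(a * 1) *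
          (-((u ^ 2 / a + 2 * u / a ^ 2 + 2 / a ^ 3) * c + (u / a + 1 / a ^ 2) * d)) +
          Real.exp (-(a * u)) * (-((2 * u / a + 2 / a ^ 2) * c + 1 / a * d))) u :=
      h2.mul ((h3.mul_const c).add (h4.mul_const d)).neg
    have e : Real.exp (-(a * u)) * -(a * 1) *
          (-((u ^ 2 / a + 2 * u / a ^ 2 + 2 / a ^ 3) * c + (u / a + 1 / a ^ 2) * d)) +
          Real.exp (-(a * u)) * (-((2 * u / a + 2 / a ^ 2) * c + 1 / a * d)) =
        Real.exp (-(a * u)) * (u ^ 2 * c + u * d) := by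
      field_simp
      ring
    rw [e] at h5
    exact h5
  have hint : IntervalIntegrable (fun u : ℝ => Real.exp (-(a * u)) * (u ^ 2 * c + u * d))
      volume 0 1 := by
    apply Continuous.intervalIntegrable
    fun_prop
  rw [intervalIntegral.integral_eq_sub_of_hasDerivAt hder hint]
  have h6 : 0 ≤ Real.exp (-(a * 1)) *
      (((1 : ℝ) ^ 2 / a + 2 * 1 / a ^ 2 + 2 / a ^ 3) * c + (1 / a + 1 / a ^ 2) * d) := by
    positivity
  have h7 : Real.exp (-(a * 0)) = 1 := by simp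
  rw [h7]
  have h8 : Real.exp (-(a * 1)) *
      (-(((1 : ℝ) ^ 2 / a + 2 * 1 / a ^ 2 + 2 / a ^ 3) * c + (1 / a + 1 / a ^ 2) * d)) =
      -(Real.exp (-(a * 1)) *
      (((1 : ℝ) ^ 2 / a + 2 * 1 / a ^ 2 + 2 / a ^ 3) * c + (1 / a + 1 / a ^ 2) * d)) := by ring
  rw [h8]
  have h9 : 1 * (-((0 ^ 2 / a + 2 * 0 / a ^ 2 + 2 / a ^ 3) * c + (0 / a + 1 / a ^ 2) * d)) =
      -(2 / a ^ 3 * c + 1 / a ^ 2 * d) := by ring
  rw [h9]
  linarith

theorem s19 : S19 := by
  intro n hn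
  have hnr : (2 : ℝ) ≤ (n : ℝ) := by exact_mod_cast hn
  have hn0 : (0 : ℝ) < (n : ℝ) := by linarith
  have h := s19_aux ((n : ℝ) / 4) (Real.log n) (1 / (n : ℝ)) (by positivity)
    (Real.log_nonneg (by linarith)) (by positivity)
  have e1 : (fun u : ℝ => Real.exp (-(n : ℝ) * u / 4) * (u ^ 2 * Real.log n + u / n)) =
      fun u : ℝ => Real.exp (-((n : ℝ) / 4 * u)) * (u ^ 2 * Real.log n + u * (1 / (n : ℝ))) := by
    funext u
    have e2 : -(n : ℝ) * u / 4 = -((n : ℝ) / 4 * u) := by ring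
    rw [e2]
    ring
  rw [e1]
  refine h.trans (le_of_eq ?_)
  field_simp
  ring

end H716Q
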