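import Pool.Agent.H716Q.Defs

set_option autoImplicit false

namespace H716Q

open MeasureTheory Set SqDist

theorem s20 : S20 := by
  intro t ht0 ht1
  have h1t : (0 : ℝ) < 1 - t := by linarith
  have h1p : (0 : ℝ) < 1 + t := by linarith
  have e1 : Real.log ((1 + t) / (1 - t)) = Real.log (1 + t) - Real.log (1 - t) :=
    Real.log_div h1p.ne' h1t.ne'
  have e2 : Real.log (1 / (1 - t)) = - Real.log (1 - t) := by
    rw [one_div, Real.log_inv]
  rw [e1, e2]
  have h1 : Real.log (1 + t) ≤ t := by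
    have := Real.log_le_sub_one_of_pos h1p
    linarith
  have h2 : 1 - (1 - t)⁻¹ ≤ Real.log (1 - t) := Real.one_sub_inv_le_log_of_pos h1t
  have h3 : (1 - t) * (1 - (1 - t)⁻¹) ≤ (1 - t) * Real.log (1 - t) :=
    mul_le_mul_of_nonneg_left h2 h1t.le
  have h4 : (1 - t) * (1 - (1 - t)⁻¹) = -t := by
    rw [mul_sub, mul_one, mul_inv_cancel₀ h1t.ne']
    ring
  nlinarith [h1, h3, h4]

end H716Q
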