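import Pool.Agent.H716Q.Fin
import Pool.Agent.H716Q.S01
import Pool.Agent.H716Q.S02
import Pool.Agent.H716Q.S03
import Pool.Agent.H716Q.S04
import Pool.Agent.H716Q.S05
import Pool.Agent.H716Q.S06
import Pool.Agent.H716Q.S07
import Pool.Agent.H716Q.S08
import Pool.Agent.H716Q.S09
import Pool.Agent.H716Q.S10
import Pool.Agent.H716Q.S11
import Pool.Agent.H716Q.S12
import Pool.Agent.H716Q.S13
import Pool.Agent.H716Q.S14
import Pool.Agent.H716Q.S15
import Pool.Agent.H716Q.S16
import Pool.Agent.H716Q.S17
import Pool.Agent.H716Q.S18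
import Pool.Agent.H716Q.S19
import Pool.Agent.H716Q.S20

set_option autoImplicit false

namespace H716Q

theorem a14 : S14 := s14 s20
theorem a02 : S02 := s02 s01
theorem a18 : S18 := s18 s03
theorem a04 : S04 := s04 s01 a18
theorem a06 : S06 := s06 a04 s05
theorem a07 : S07 := s07 a06
theorem a08 : S08 := s08 a02 a07
theorem a09 : S09 := s09 a02 a08
theorem a10 : S10 := s10 a02 a09
theorem a11 : S11 := s11 a10 a14
theorem a12 : S12 := s12 a11
theorem a13 : S13 := s13 a12 a14
theorem a15 : S15 := s15 a14 s19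
theorem a16 : S16 := s16 a14 a15

end H716Q
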