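import Pool.Agent.Helper379.SqDistF2

set_option autoImplicit false

namespace H716Q

open MeasureTheory Set SqDist

/-- The north pole. -/
noncomputable def e3 : R3 := !₂[(0 : ℝ), 0, 1]

/-- `c(d) = log (1 + d/4) + (d/4) log (1 + 4/d)`. -/
noncomputable def cc (d : ℝ) : ℝ := Real.log (1 + d / 4) + d / 4 * Real.log (1 + 4 / d)

/-- The hyperbolic Poisson kernel on the sphere. -/
noncomputable def kk (d : ℝ) (w v : R3) : ℝ :=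
  d * (4 + d) / (4 * Real.pi * (d + ‖w - v‖ ^ 2) ^ 2)

/-- The parameter of the kernel at radius `r`. -/
noncomputable def dl (r : ℝ) : ℝ := (1 - r) ^ 2 / r

/-- `r exp (c (d(r)))`. -/
noncomputable def ph (r : ℝ) : ℝ := r * Real.exp (cc (dl r))

/-- `∫₀¹ t² (ph t)^m dt`. -/
noncomputable def JJ (m : ℕ) : ℝ := ∫ t in (0 : ℝ)..1, t ^ 2 * ph t ^ m

/-- Archimedes for continuous functions. -/
def S01 : Prop := ∀ g : ℝ → ℝ, Continuous g →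
  ∫ w, g (w 2) ∂sph = 2 * Real.pi * ∫ x in (-1 : ℝ)..1, g x

/-- The kernel has mass one. -/
def S02 : Prop := ∀ d : ℝ, 0 < d → ∀ w : R3, ‖w‖ = 1 → ∫ v, kk d w v ∂sph = 1

/-- Circle averages of the logarithm. -/
def S03 : Prop := ∀ (u v η : ℝ) (p : ℂ), 0 ≤ u → 0 ≤ v → 0 < η → 0 < max u v →
  ‖p‖ ^ 2 = 4 * (u * v) →
  2 * Real.pi * Real.log (max u v) ≤
    ∫ θ in (0 : ℝ)..(2 * Real.pi),
      Real.log (u + v + η - (p * Complex.exp ((θ : ℂ) * Complex.I)).re)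

/-- Averages over rotations about the vertical axis. -/
def S18 : Prop := ∀ (η : ℝ) (v a : R3), 0 < η → ‖v‖ = 1 → ‖a‖ = 1 → |a 2| < 1 →
  2 * Real.pi * Real.log (max ((1 + v 2) * (1 - a 2)) ((1 - v 2) * (1 + a 2))) ≤
    ∫ θ in (0 : ℝ)..(2 * Real.pi),
      Real.log (‖rotE (Real.cos θ) (Real.sin θ) (Real.cos_sq_add_sin_sq θ) v - a‖ ^ 2 + η)

/-- Reduction of the kernel average at the pole to an integral over `[-1,1]`. -/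
def S04 : Prop := ∀ (d η : ℝ) (a : R3), 0 < d → 0 < η → ‖a‖ = 1 → |a 2| < 1 →
  2 * Real.pi * ∫ x in (-1 : ℝ)..1, d * (4 + d) / (4 * Real.pi * (d + (2 - 2 * x)) ^ 2) *
      Real.log (max ((1 + x) * (1 - a 2)) ((1 - x) * (1 + a 2))) ≤
    ∫ v, kk d e3 v * Real.log (‖v - a‖ ^ 2 + η) ∂sph

/-- The integral over `[-1,1]`. -/
def S05 : Prop := ∀ d ξ : ℝ, 0 < d → |ξ| < 1 →
  Real.log (2 - 2 * ξ + d) - cc d =
  2 * Real.pi * ∫ x in (-1 : ℝ)..1, d * (4 + d) / (4 * Real.pi * (d + (2 - 2 * x)) ^ 2) *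
      Real.log (max ((1 + x) * (1 - ξ)) ((1 - x) * (1 + ξ)))

/-- Kernel average of the logarithm at the pole. -/
def S06 : Prop := ∀ (d η : ℝ) (a : R3), 0 < d → 0 < η → ‖a‖ = 1 →
  Real.log (‖e3 - a‖ ^ 2 + d) - cc d ≤ ∫ v, kk d e3 v * Real.log (‖v - a‖ ^ 2 + η) ∂sph

/-- Kernel average of the logarithm. -/
def S07 : Prop := ∀ (d η : ℝ) (w a : R3), 0 < d → 0 < η → ‖w‖ = 1 → ‖a‖ = 1 →
  Real.log (‖w - a‖ ^ 2 + d) - cc d ≤ ∫ v, kk d w v * Real.log (‖v - a‖ ^ 2 + η) ∂sph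

/-- The same for points of the closed ball. -/
def S08 : Prop := ∀ (r η : ℝ) (w a : R3), 0 < r → r < 1 → 0 < η → ‖w‖ = 1 → ‖a‖ ≤ 1 →
  r • w ≠ a →
  Real.log (‖r • w - a‖ ^ 2) - Real.log r - cc (dl r) ≤
    ∫ v, kk (dl r) w v * Real.log (‖v - a‖ ^ 2 + η) ∂sph

/-- Jensen. -/
def S09 : Prop := ∀ (m : ℕ) (Y : Fin m → R3) (r η : ℝ) (w : R3), 0 < r → r < 1 → 0 < η →
  ‖w‖ = 1 → (∀ k, ‖Y k‖ ≤ 1) →
  ∏ k, ‖r • w - Y k‖ ^ 2 ≤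
    ph r ^ m * ∫ v, kk (dl r) w v * ∏ k, (‖v - Y k‖ ^ 2 + η) ∂sph

/-- Comparison of spheres. -/
def S10 : Prop := ∀ (m : ℕ) (Y : Fin m → R3) (r : ℝ), 0 < r → r < 1 → (∀ k, ‖Y k‖ ≤ 1) →
  ∫ w, ∏ k, ‖r • w - Y k‖ ^ 2 ∂sph ≤ ph r ^ m * ∫ w, ∏ k, ‖w - Y k‖ ^ 2 ∂sph

/-- Comparison of the ball and the sphere, one point. -/
def S11 : Prop := ∀ (m : ℕ) (Y : Fin m → R3), (∀ k, ‖Y k‖ ≤ 1) →
  ∫⁻ x, ENNReal.ofReal (∏ k, ‖x - Y k‖ ^ 2) ∂bal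
    ≤ ENNReal.ofReal (JJ m) * ∫⁻ w, ENNReal.ofReal (∏ k, ‖w - Y k‖ ^ 2) ∂sph

/-- Comparison of the ball and the sphere, all points. -/
def S12 : Prop := ∀ m : ℕ,
  ∫⁻ r, ENNReal.ofReal (Q r) ∂(Measure.pi fun _ : Fin (m + 1) => bal)
    ≤ ENNReal.ofReal (JJ m) ^ (m + 1) *
      ∫⁻ r, ENNReal.ofReal (Q r) ∂(Measure.pi fun _ : Fin (m + 1) => sph)

/-- The upper bound. -/
def S13 : Prop := ∀ m : ℕ,
  ∫ r in {r : Fin (m + 1) → R3 | ∀ i, ‖r i‖ ≤ 1}, Q r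
    ≤ JJ m ^ (m + 1) * ∫ w : Fin (m + 1) → Metric.sphere (0 : R3) 1, Q (fun i => (w i : R3))
        ∂(Measure.pi fun _ => (volume : Measure R3).toSphere)

/-- Bounds for `ph`. -/
def S14 : Prop := ∀ t : ℝ, 0 < t → t < 1 →
  0 < ph t ∧ t ≤ ph t ∧ ph t ≤ Real.exp (-(1 - t) / 4) ∧
    ph t - t ≤ 2 * (1 - t) ^ 2 * (1 + Real.log (1 / (1 - t)))

/-- Bound for `JJ`. -/
def S15 : Prop := ∀ n : ℕ, 2 ≤ n →
  JJ (n - 1) ≤ 1 / ((n : ℝ) + 2) * (1 + 1300 * Real.log n / n)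

/-- Bound for the power of `JJ`. -/
def S16 : Prop := ∀ n : ℕ, 2 ≤ n →
  0 ≤ JJ (n - 1) ∧ JJ (n - 1) ^ n ≤ (n : ℝ) ^ 1300 * (((n : ℝ) + 2) ^ n)⁻¹

/-- Stirling type expansion of the closed form. -/
def S17 : Prop := ∃ C : ℝ, ∀ n : ℕ, 2 ≤ n →
  |Real.log (2 ^ (n * (n + 1)) * Real.pi ^ n * (∏ k ∈ Finset.range n, (k.factorial : ℝ) ^ 2)
        / (n.factorial : ℝ) ^ (n - 1)) -
    ((Real.log 2 - 1 / 2) * (n : ℝ) ^ 2 + 1 / 2 * n * Real.log n +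
      (3 / 2 * Real.log (2 * Real.pi) - 1) * n)| ≤ C * Real.log n

/-- One-dimensional integral used for `JJ`. -/
def S19 : Prop := ∀ n : ℕ, 2 ≤ n →
  ∫ u in (0 : ℝ)..1, Real.exp (-(n : ℝ) * u / 4) * (u ^ 2 * Real.log n + u / n) ≤
    128 * Real.log n / (n : ℝ) ^ 3 + 16 / (n : ℝ) ^ 3

/-- The logarithmic inequality behind the bounds for `ph`. -/
def S20 : Prop := ∀ t : ℝ, 0 < t → t < 1 →
  Real.log ((1 + t) / (1 - t)) ≤ 2 * t + t * Real.log (1 / (1 - t))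

end H716Q
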