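import Pool.Agent.H716Q.Defs

set_option autoImplicit false

namespace H716Q

open MeasureTheory Set SqDist

theorem fin_upper (h13 : S13) (h16 : S16) (n : ℕ) (hn : 2 ≤ n) :
    ∫ r in {r : Fin n → R3 | ∀ i, ‖r i‖ ≤ 1}, Q r
      ≤ (n : ℝ) ^ 1300 * ((((n : ℝ) + 2) ^ n)⁻¹ *
        ∫ w : Fin n → Metric.sphere (0 : R3) 1, Q (fun i => (w i : R3))
        ∂(Measure.pi fun _ => (volume : Measure R3).toSphere)) := by
  obtain ⟨m, rfl⟩ : ∃ m, n = m + 1 := ⟨n - 1, by omega⟩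
  have h1 := h13 m
  have h2 := (h16 (m + 1) hn).2
  rw [Nat.add_sub_cancel] at h2
  have h3 : 0 ≤ ∫ w : Fin (m + 1) → Metric.sphere (0 : R3) 1, Q (fun i => (w i : R3))
        ∂(Measure.pi fun _ => (volume : Measure R3).toSphere) :=
    integral_nonneg fun w => Finset.prod_nonneg fun k _ => Finset.prod_nonneg fun j _ => sq_nonneg _
  calc _ ≤ _ := h1
    _ ≤ ((((m + 1 : ℕ) : ℝ)) ^ 1300 * ((((m + 1 : ℕ) : ℝ) + 2) ^ (m + 1))⁻¹) * _ :=
        mul_le_mul_of_nonneg_right h2 h3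
    _ = _ := by ring

theorem fin_log (F2 F3 : ℕ → ℝ)
    (hlow : ∀ n : ℕ, (((n : ℝ) + 2) ^ n)⁻¹ * F2 n ≤ F3 n)
    (hup : ∀ n : ℕ, 2 ≤ n → F3 n ≤ (n : ℝ) ^ 1300 * ((((n : ℝ) + 2) ^ n)⁻¹ * F2 n))
    (hcl : ∀ n : ℕ, 1 ≤ n → F2 n = 2 ^ (n * (n + 1)) * Real.pi ^ n
        * (∏ k ∈ Finset.range n, (k.factorial : ℝ) ^ 2) / (n.factorial : ℝ) ^ (n - 1))
    (h17 : S17) :
    ∃ C : ℝ, ∀ n : ℕ, 2 ≤ n →
      |Real.log (F3 n) - ((Real.log 2 - 1 / 2) * (n : ℝ) ^ 2 - 1 / 2 * n * Real.log n +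
        (3 / 2 * Real.log (2 * Real.pi) - 1) * n)| ≤ C * Real.log n := by
  obtain ⟨C, hC⟩ := h17
  refine ⟨C + 1303, fun n hn => ?_⟩
  have hn0 : (0 : ℝ) < n := by
    have : 0 < n := by omega
    exact_mod_cast this
  have hn2 : (2 : ℝ) ≤ n := by exact_mod_cast hn
  have hF2 : 0 < F2 n := by
    rw [hcl n (by omega)]
    have hp : 0 < ∏ k ∈ Finset.range n, (k.factorial : ℝ) ^ 2 :=
      Finset.prod_pos fun k _ => by positivity
    positivity
  have hL2 : Real.log 2 ≤ Real.log n := Real.log_le_log (by norm_num) hn2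
  have hl2 : 0.6931 < Real.log 2 := by
    have := Real.log_two_gt_d9
    linarith
  have hA : Real.log ((((n : ℝ) + 2) ^ n)⁻¹ * F2 n) = Real.log (F2 n) - n * Real.log ((n : ℝ) + 2) := by
    rw [Real.log_mul (by positivity) hF2.ne', Real.log_inv, Real.log_pow]
    ring
  have hF3 : 0 < F3 n := lt_of_lt_of_le (by positivity) (hlow n)
  have h1 : Real.log (F2 n) - n * Real.log ((n : ℝ) + 2) ≤ Real.log (F3 n) := by
    rw [← hA]
    exact Real.log_le_log (by positivity) (hlow n)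
  have h2 : Real.log (F3 n) ≤ 1300 * Real.log n + (Real.log (F2 n) - n * Real.log ((n : ℝ) + 2)) := by
    rw [← hA]
    have h := Real.log_le_log hF3 (hup n hn)
    rw [Real.log_mul (by positivity) (by positivity), Real.log_pow] at h
    exact_mod_cast h
  have h3 : Real.log (n : ℝ) ≤ Real.log ((n : ℝ) + 2) := Real.log_le_log hn0 (by linarith)
  have h4 : Real.log ((n : ℝ) + 2) ≤ Real.log n + 2 / n := by
    have h5 : (n : ℝ) + 2 = n * (1 + 2 / n) := by field_simp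
    rw [h5, Real.log_mul hn0.ne' (by positivity)]
    have h6 := Real.log_le_sub_one_of_pos (show (0 : ℝ) < 1 + 2 / n by positivity)
    linarith
  have h7 : (n : ℝ) * Real.log ((n : ℝ) + 2) ≤ n * Real.log n + 2 := by
    have h8 := mul_le_mul_of_nonneg_left h4 hn0.le
    have h9 : (n : ℝ) * (Real.log n + 2 / n) = n * Real.log n + 2 := by field_simp
    linarith
  have h10 : (n : ℝ) * Real.log n ≤ n * Real.log ((n : ℝ) + 2) := mul_le_mul_of_nonneg_left h3 hn0.le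
  have h11 := hC n hn
  rw [← hcl n (by omega)] at h11
  rw [abs_le] at h11 ⊢
  constructor <;> nlinarith [h11.1, h11.2]

end H716Q
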