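import Pool.Agent.H716Q.Defs

set_option autoImplicit false

namespace H716Q

open MeasureTheory Set SqDist

theorem s18_sq (x : R3) : ‖x‖ ^ 2 = x 0 ^ 2 + x 1 ^ 2 + x 2 ^ 2 := by
  rw [EuclideanSpace.norm_sq_eq, Fin.sum_univ_three]
  simp only [Real.norm_eq_abs, sq_abs]

theorem s18 (h03 : S03) : S18 := by
  intro η v a hη hv ha ha2
  have hv' : v 0 ^ 2 + v 1 ^ 2 + v 2 ^ 2 = 1 := by rw [← s18_sq, hv]; norm_num
  have ha' : a 0 ^ 2 + a 1 ^ 2 + a 2 ^ 2 = 1 := by rw [← s18_sq, ha]; norm_num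
  obtain ⟨ha3, ha4⟩ := abs_lt.1 ha2
  have hv1 : v 2 ≤ 1 := by nlinarith [sq_nonneg (v 0), sq_nonneg (v 1)]
  have hv2 : -1 ≤ v 2 := by nlinarith [sq_nonneg (v 0), sq_nonneg (v 1)]
  have hpos : 0 < max ((1 + v 2) * (1 - a 2)) ((1 - v 2) * (1 + a 2)) := by
    rcases lt_or_ge (v 2) 0 with h | h
    · exact lt_max_of_lt_right (mul_pos (by linarith) (by linarith))
    · exact lt_max_of_lt_left (mul_pos (by linarith) (by linarith))
  have h := h03 ((1 + v 2) * (1 - a 2)) ((1 - v 2) * (1 + a 2)) η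
    (⟨2 * (v 0 * a 0 + v 1 * a 1), 2 * (v 1 * a 0 - v 0 * a 1)⟩ : ℂ)
    (mul_nonneg (by linarith) (by linarith)) (mul_nonneg (by linarith) (by linarith)) hη hpos ?_
  · refine h.trans (le_of_eq ?_)
    refine intervalIntegral.integral_congr fun θ _ => ?_
    simp only
    congr 1
    rw [s18_sq]
    have e0 : (rotE (Real.cos θ) (Real.sin θ) (Real.cos_sq_add_sin_sq θ) v - a) 0 =
        Real.cos θ * v 0 - Real.sin θ * v 1 - a 0 := rfl
    have e1 : (rotE (Real.cos θ) (Real.sin θ) (Real.cos_sq_add_sin_sq θ) v - a) 1 =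
        Real.sin θ * v 0 + Real.cos θ * v 1 - a 1 := rfl
    have e2 : (rotE (Real.cos θ) (Real.sin θ) (Real.cos_sq_add_sin_sq θ) v - a) 2 =
        v 2 - a 2 := rfl
    rw [e0, e1, e2, Complex.mul_re, Complex.exp_ofReal_mul_I_re, Complex.exp_ofReal_mul_I_im]
    have hcs := Real.cos_sq_add_sin_sq θ
    simp only
    linear_combination (-(v 0 ^ 2 + v 1 ^ 2)) * hcs - hv' - ha'
  · rw [Complex.sq_norm, Complex.normSq_mk]
    have e1 : v 0 ^ 2 + v 1 ^ 2 = 1 - v 2 ^ 2 := by linarith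
    have e2 : a 0 ^ 2 + a 1 ^ 2 = 1 - a 2 ^ 2 := by linarith
    have e3 : 2 * (v 0 * a 0 + v 1 * a 1) * (2 * (v 0 * a 0 + v 1 * a 1)) +
        2 * (v 1 * a 0 - v 0 * a 1) * (2 * (v 1 * a 0 - v 0 * a 1)) =
        4 * ((v 0 ^ 2 + v 1 ^ 2) * (a 0 ^ 2 + a 1 ^ 2)) := by ring
    rw [e3, e1, e2]
    ring

end H716Q
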